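import Mathlib
import Pool.Agent.H36.KT.EvC
import Pool.Agent.H36.GP.Disc

/-!
The law for the positions in short windows: one scale, for arbitrary sets of primes of small density.
-/

set_option autoImplicit false

open Finset Filter

namespace Pool.Agent.H36.GP

open Pool.Agent.H36.RW Pool.Agent.H373R2.T7 Pool.Agent.H36.BF Pool.Agent.H36.BE Pool.Agent.H36.BT Pool.Agent.H36.KT

set_option maxHeartbeats 4000000 in
theorem evG (κ : ℕ) (hκ : 1 ≤ κ) (ε : ℝ) (hε : 0 < ε) (hε1 : ε ≤ 1) (α : ℝ) (hα : 0 < α) (hα1 : α ≤ 2 / 3) : ∃ δ0 : ℝ, 0 < δ0 ∧ δ0 ≤ 1 / 12 ∧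
    ∀ (A : ℕ), ∃ c2 lam0 : ℝ, 0 < c2 ∧ c2 ≤ 1 / 2 ∧ 4 ≤ lam0 ∧
    ∀ᶠ L : ℝ in atTop,
    ∀ X : ℕ, Real.exp L ≤ X → ∀ lam : ℝ, lam0 ≤ lam → lam ≤ L ^ δ0 → ∀ (w : ℕ) (D : Finset ℕ), D.card = κ → 1 ≤ w →
    Adm D w → (∀ T p : ℕ, p.Prime → T < p → ¬ p ∣ w → Sep w T D p) → VK D w (zE c2 L) ≤ L ^ (-α) → ∀ T : ℕ, 2 * lam ≤ T * VK D w (zE c2 L) →
    T * VK D w (zE c2 L) ≤ 8 * lam →
    ∀ q r : ℕ, (∀ p : ℕ, p.Prime → Real.log L < p → p ≤ zE c2 L → ¬ p ∣ w → ¬ p ∣ q) →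
    (((Icc 1 X).filter (fun l => ε * (T * VK D w (zE c2 L)) <
      |(RK D w (zE c2 L) (q * l + r) T : ℝ) - T * VK D w (zE c2 L)|)).card : ℝ) ≤ X / lam ^ A := by
  obtain ⟨C0, C1, hC0, htwo⟩ := twoP_ex κ hκ (ε / 4) (by positivity) (by linarith)
  obtain ⟨cl, hcl, hVl⟩ := Vz_lower
  obtain ⟨Cu, hCu, hVu⟩ := Vz_upper
  obtain ⟨K1, x0, hK1, hsm⟩ := small_countK κ hκ (ε / 16) (by positivity)
  have hκr : (1 : ℝ) ≤ κ := by exact_mod_cast hκ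
  set η : ℝ := α / (6 * K1) with hη
  have hK1r : (1 : ℝ) ≤ K1 := by exact_mod_cast hK1
  have hη0 : 0 < η := by rw [hη]; positivity
  have hη6 : η ≤ 1 / 6 := by
    rw [hη, div_le_div_iff₀ (by positivity) (by norm_num)]
    nlinarith
  have hηK : η * K1 = α / 6 := by rw [hη]; field_simp
  have hηα : η ≤ α := by
    rw [hη, div_le_iff₀ (by positivity)]
    nlinarith
  refine ⟨η / 2, by positivity, by linarith, fun A => ?_⟩
  set δ : ℝ := η / 2 with hδd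
  have hδ : 0 < δ := by positivity
  have hδη : δ ≤ η / 2 := le_rfl
  -- the parameters
  set k : ℕ := A + 3 with hk
  have hk1 : 1 ≤ k := by omega
  have hkr : (1 : ℝ) ≤ k := by exact_mod_cast hk1
  set e0 : ℕ := 2 * κ + 1 with he0
  have he01 : 1 ≤ e0 := by omega
  have he0r : (1 : ℝ) ≤ e0 := by exact_mod_cast he01
  set b : ℕ := max C1 2 with hb
  have hbC : C1 ≤ b := le_max_left _ _
  have hb2 : 2 ≤ b := le_max_right _ _
  have hbr : (2 : ℝ) ≤ b := by exact_mod_cast hb2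
  set a : ℕ := e0 * (2 * k) + 3 * e0 + 2 * A + 20 with ha
  obtain ⟨Bq, hBq⟩ := exists_pow_lt_of_lt_one (Real.exp_pos (-((A + 3 : ℕ) : ℝ))) (show (1 / 2 : ℝ) < 1 by norm_num)
  set B : ℕ := max (C0 * (κ * (2 * k))) (max Bq 2) with hB
  have hBC : C0 * (κ * (2 * k)) ≤ B := le_max_left _ _
  have hB2 : 2 ≤ B := (le_max_right _ _).trans (le_max_right _ _)
  have hBr : (2 : ℝ) ≤ B := by exact_mod_cast hB2
  have hBB : (1 / 2 : ℝ) ^ B ≤ Real.exp (-((A + 3 : ℕ) : ℝ)) := by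
    have h1 : (1 / 2 : ℝ) ^ B ≤ (1 / 2) ^ Bq :=
      pow_le_pow_of_le_one (by norm_num) (by norm_num) ((le_max_left _ _).trans (le_max_right _ _))
    exact h1.trans hBq.le
  set c1 : ℝ := 1 / (2000 * B) with hc1
  have hc10 : 0 < c1 := by rw [hc1]; positivity
  have hc11 : c1 ≤ 1 := by
    rw [hc1, div_le_one (by positivity)]
    linarith
  set c2 : ℝ := 1 / (1280 * b * k) with hc2
  have hc20 : 0 < c2 := by rw [hc2]; positivity
  have h640 : (2 : ℝ) * 1 ≤ b * k := mul_le_mul hbr hkr (by norm_num) (by positivity)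
  have hc22 : c2 ≤ 1 / 2 := by
    rw [hc2]
    apply one_div_le_one_div_of_le (by norm_num)
    linarith
  have hc21 : c2 ≤ 1 := by linarith
  set R0 : ℝ := 2 * Cu * c2 / (cl * c1) with hR0
  have hR00 : 0 < R0 := by rw [hR0]; positivity
  set τ : ℝ := 1 / (8 * k + 8) with hτ
  have hτ0 : 0 < τ := by rw [hτ]; positivity
  set N : ℕ := 2 ^ (κ * (2 * k)) with hN
  set KJ : ℝ := 16 * (c2 / c1) + 1 with hKJ
  have hKJ1 : 1 ≤ KJ := by
    rw [hKJ]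
    have : 0 < 16 * (c2 / c1) := by positivity
    linarith
  have hKJ0 : 0 < KJ := by linarith
  have hM : ∀ (η : ℝ), 0 < η → ∀ M : ℝ, ∀ᶠ L : ℝ in atTop, M ≤ L ^ η := fun η hη0 M => by
    filter_upwards [ev_log_add 0 M η hη0] with L h1
    linarith
  have hlogM : ∀ M : ℝ, ∀ᶠ L : ℝ in atTop, M ≤ Real.log L := fun M =>
    Real.tendsto_log_atTop.eventually_ge_atTop M
  -- conditions on lam
  obtain ⟨lam0, hlam0⟩ := eventually_atTop.1 ((eventually_ge_atTop (Real.exp 1)).and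
    ((hlogM (c1 / c2)).and ((hM τ hτ0 (4 * Real.exp 1 * (45 * κ) * k / (ε / 4 / 8) ^ 2 +
      4 * Real.exp 3 / (ε / 4 / 8) ^ 2 + ((k * κ ^ 2 : ℕ) : ℝ))).and
    ((ev_log_pow (64 * KJ / ε) τ hτ0 1).and ((ev_log_pow (2 * k * (KJ * (2 * b + 2 * KJ + 1)) * 2 ^ κ) τ hτ0 2).and
    ((ev_log_pow (R0 ^ N) τ hτ0 N).and ((ev_log_pow (R0 ^ (2 * κ)) τ hτ0 (2 * κ)).and ((eventually_ge_atTop (4 : ℝ)).and
    (eventually_ge_atTop (45 * (κ : ℝ) * k))))))))))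
  refine ⟨c2, max lam0 4, hc20, hc22, le_max_right _ _, ?_⟩
  filter_upwards [eventually_ge_atTop (Real.exp 1), hM η hη0 (4 * (κ * k) + 12), hM η hη0 (x0 + 2),
    ev_log_pow (288 * κ ^ 2 * (R0 ^ (2 * κ) * ((2 * κ) ^ (2 * κ) * ((e0 : ℝ) / cl) ^ (2 * κ)) ^ 2)) (η / 2)
      (by positivity) (6 * κ),
    ev_exp_div 3 (c1 / 2) (by positivity) 1,
    ev_exp_div 2 c1 hc10 a, ev_pow_exp ((16 / (ε / 4)) ^ (2 * k) * 4) (1 / 16) (by norm_num) (e0 * (2 * k) + 1),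
    ev_pow_exp 6 (1 / 4) (by norm_num) A, ev_log_add 1 1 η hη0, eventually_ge_atTop (16 : ℝ),
    hM (2 / 3) (by norm_num) 4, ev_pow_exp 6 (1 / 50) (by norm_num) 1,
    ev_pow_exp 3 (c2 / 2) (by positivity) 0, eventually_ge_atTop (1 : ℝ),
    ev_pow_exp (4 * (1 : ℝ)) c2 hc20 1, hM (11 / 12) (by norm_num) (8 * ((2 * κ) ^ (2 * κ) * (c2 / cl) ^ (2 * κ))),
    ev_log_pow (16 / ε * ((2 * κ) ^ (2 * κ) / cl ^ (2 * κ))) (α / 2) (by positivity) (2 * κ),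
    ev_log_add (2 * ((1 : ℝ) + 1) / c1) 2 1 one_pos, eventually_ge_atTop (κ : ℝ),
    ev_pow_exp 1 (1 / 2) (by norm_num) (3 * e0 + 4), eventually_ge_atTop (16 / ε),
    ev_log_pow (64 * k * κ * (KJ * (2 * b + 2 * KJ + 1))) 1 one_pos 2, eventually_ge_atTop (3 * (1 : ℝ))] with
    L hLe f1 f2 f3 f5 f13 f14 f16 f18 f19 f20 f21 f22 f23 f24 f25 f26 f27 f28 f29 f30 f31 f32
  intro X hX lam hlamlow hlamup w D hDκ hw hA hsep hVα T hT1 hT2 q r hq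
  obtain ⟨m1, m2, m3, m4, m5, m6, m7, m8, m9⟩ := hlam0 lam ((le_max_left _ _).trans hlamlow)
  clear hlam0
  have hDne : D.Nonempty := card_pos.1 (by omega)
  have hL0 : 0 < L := by linarith
  have hL1 : 1 ≤ L := by linarith
  have hlampos : 0 < lam := by linarith
  have hlam1 : 1 ≤ lam := by linarith
  set ℓ := Real.log L with hℓ
  set ρ := Real.log lam with hρ
  have hρ1 : 1 ≤ ρ := by
    rw [hρ, Real.le_log_iff_exp_le hlampos]
    exact m1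
  have hρ0 : 0 < ρ := by linarith
  have hδ12 : δ ≤ 1 / 12 := by linarith
  have hlamL : lam ≤ L := by
    refine hlamup.trans ?_
    calc L ^ δ ≤ L ^ (1 : ℝ) := Real.rpow_le_rpow_of_exponent_le hL1 (by linarith)
      _ = L := Real.rpow_one L
  have hρℓ : ρ ≤ ℓ := Real.log_le_log hlampos hlamL
  have hℓ1 : 1 ≤ ℓ := by linarith
  have hℓ0 : 0 < ℓ := by linarith
  set z := zE c2 L with hz
  set z1 := ⌊Real.exp (c1 * L / ρ)⌋₊ with hz1
  set y : ℕ := ⌊L ^ η⌋₊ with hy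
  set b1 := B * ⌈ρ⌉₊ with hb1
  set Λ : ℝ := lam ^ τ with hΛ
  set J' : ℕ := ⌈16 * (c2 / c1) * ρ⌉₊ with hJ'
  set Mb : ℕ := ⌈2 * ((1 : ℝ) + 1) * ρ / c1⌉₊ + 1 with hMb
  have hzle : (z : ℝ) ≤ Real.exp (c2 * L) := zE_le c2 L
  have hzlt : Real.exp (c2 * L) < z + 1 := Nat.lt_floor_add_one _
  have hz1le : (z1 : ℝ) ≤ Real.exp (c1 * L / ρ) := Nat.floor_le (Real.exp_pos _).le
  have hz1lt : Real.exp (c1 * L / ρ) < z1 + 1 := Nat.lt_floor_add_one _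
  have hyle : (y : ℝ) ≤ L ^ η := Nat.floor_le (by positivity)
  have hylt : L ^ η < y + 1 := Nat.lt_floor_add_one _
  have hJ'1 : 16 * (c2 / c1) * ρ ≤ J' := Nat.le_ceil _
  have hJ'2 : (J' : ℝ) < 16 * (c2 / c1) * ρ + 1 := Nat.ceil_lt_add_one (by positivity)
  have hMb1 : 2 * ((1 : ℝ) + 1) * ρ / c1 + 1 ≤ Mb := by
    rw [hMb]
    push_cast
    linarith [Nat.le_ceil (2 * ((1 : ℝ) + 1) * ρ / c1)]
  have hMb2 : (Mb : ℝ) ≤ 2 * ((1 : ℝ) + 1) * ρ / c1 + 2 := by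
    rw [hMb]
    push_cast
    linarith [Nat.ceil_lt_add_one (show 0 ≤ 2 * ((1 : ℝ) + 1) * ρ / c1 by positivity)]
  have hJ'3 : (J' : ℝ) ≤ KJ * ρ := by
    rw [hKJ]
    linarith
  have g3' : z1 ≤ z := by
    apply Nat.floor_le_floor
    apply Real.exp_le_exp.2
    rw [div_le_iff₀ hc20] at m2
    rw [div_le_iff₀ hρ0]
    calc c1 * L ≤ (ρ * c2) * L := mul_le_mul_of_nonneg_right m2 hL0.le
      _ = c2 * L * ρ := by ring
  have hz1log : 3 ≤ Real.exp (c1 * L / ρ / 2) → c1 * L / ρ / 2 ≤ Real.log z1 := fun h => log_floor_ge _ h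
  have hzlog : c2 * L / 2 ≤ Real.log z := log_floor_ge (c2 * L) (by
    have : c2 / 2 * L = c2 * L / 2 := by ring
    rw [this, pow_zero, mul_one] at f22
    exact f22)
  have hceil1 : ρ ≤ (⌈ρ⌉₊ : ℝ) := Nat.le_ceil _
  have hceil2 : (⌈ρ⌉₊ : ℝ) < ρ + 1 := Nat.ceil_lt_add_one hρ0.le
  have hceil3 : 1 ≤ ⌈ρ⌉₊ := Nat.ceil_pos.2 hρ0
  have hΛk : Λ ^ (8 * k + 8) ≤ lam := by
    rw [hΛ, ← Real.rpow_natCast, ← Real.rpow_mul hlampos.le]
    have : τ * ((8 * k + 8 : ℕ) : ℝ) = 1 := by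
      rw [hτ]
      push_cast
      field_simp
    rw [this, Real.rpow_one]
  have hΛ1 : 1 ≤ Λ := by
    rw [hΛ]
    exact Real.one_le_rpow hlam1 hτ0.le
  clear_value Λ y z1 z J' Mb
  clear_value N τ B b KJ
  have hL13 : L ^ η ≤ L ^ (1 / 6 : ℝ) := Real.rpow_le_rpow_of_exponent_le hL1 hη6
  have hyL : (y : ℝ) ≤ L ^ (1 / 6 : ℝ) := hyle.trans hL13
  -- comparison of the exponents
  have hcL : c1 * L / ℓ ≤ c1 * L / ρ := div_le_div_of_nonneg_left (by positivity) hρ0 hρℓ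
  have hexpρ : Real.exp (c1 * L / ℓ) ≤ Real.exp (c1 * L / ρ) := Real.exp_le_exp.2 hcL
  have hLa : (1 : ℝ) ≤ L ^ a := one_le_pow₀ hL1
  have hz1a : L ^ a ≤ z1 := by linarith
  -- y
  have g1 : 4 * (κ * k) + 10 ≤ y := by
    have h1 : ((4 * (κ * k) + 10 : ℕ) : ℝ) < y := by
      push_cast
      linarith
    exact_mod_cast h1.le
  have hκk : κ * 1 ≤ κ * k := Nat.mul_le_mul_left _ hk1
  have hy1 : 1 ≤ y := by omega
  have hy2 : 2 ≤ y := by omega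
  have hyr : (1 : ℝ) ≤ y := by exact_mod_cast hy1
  have hyL23 : (y : ℝ) ≤ L ^ (2 / 3 : ℝ) := hyL.trans (Real.rpow_le_rpow_of_exponent_le hL1 (by norm_num))
  have hyhalf : L ^ η / 2 ≤ y := by linarith
  -- z
  have hBL : L ≤ (1 : ℝ) * L := by linarith
  have hz3L : 3 * ((1 : ℝ) * L) ≤ z := by
    rw [pow_one, mul_assoc] at f24
    linarith
  have hz2 : 2 ≤ z := by
    have : (2 : ℝ) ≤ z := by linarith
    exact_mod_cast this
  have hzr : (1 : ℝ) < z := by exact_mod_cast hz2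
  have hlogz0 : 0 < Real.log z := Real.log_pos hzr
  have hlogz : Real.log z ≤ c2 * L := by
    rw [← Real.log_exp (c2 * L)]
    exact Real.log_le_log (by linarith) hzle
  have hVzl : cl / (c2 * L) ≤ Vz z := (div_le_div_of_nonneg_left hcl.le hlogz0 hlogz).trans (hVl z hz2)
  -- T
  have hTup : (T : ℝ) ≤ L ^ e0 := T_upper κ hκ D hDκ w z T hA L δ c2 cl lam hL1 hδ12 hcl hc20 hVzl hlamup hT2 f25
  have hTlow : L ^ α ≤ T := by
    have h1 : 2 * lam ≤ T * L ^ (-α) := hT1.trans (mul_le_mul_of_nonneg_left hVα (Nat.cast_nonneg T))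
    have h2 : L ^ (-α) * L ^ α = 1 := by
      rw [← Real.rpow_add hL0]
      simp
    have h3 : 0 < L ^ α := by positivity
    calc L ^ α ≤ (2 * lam) * L ^ α := le_mul_of_one_le_left h3.le (by linarith)
      _ ≤ (T * L ^ (-α)) * L ^ α := mul_le_mul_of_nonneg_right h1 h3.le
      _ = T := by rw [mul_assoc, h2, mul_one]
  have g2 : y ≤ T := by
    have h1 : (y : ℝ) ≤ T := (hyle.trans (Real.rpow_le_rpow_of_exponent_le hL1 hηα)).trans hTlow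
    exact_mod_cast h1
  have g3 : T ≤ z1 := by
    have h1 : (T : ℝ) ≤ z1 := by
      refine hTup.trans (le_trans ?_ hz1a)
      apply pow_le_pow_right₀ hL1
      rw [ha]
      omega
    exact_mod_cast h1
  have hT0 : (0 : ℝ) < T := lt_of_lt_of_le (by positivity) hTlow
  have g4 : ∀ p, p.Prime → y < p → p ≤ z → ¬ p ∣ w → ¬ p ∣ q := by
    intro p hp h1 h2 h3
    apply hq p hp _ h2 h3
    have h4 : (y : ℝ) + 1 ≤ p := by exact_mod_cast h1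
    linarith
  have hlogy : Real.log y ≤ ℓ := by
    apply Real.log_le_log (by linarith)
    calc (y : ℝ) ≤ L ^ (2 / 3 : ℝ) := hyL23
      _ ≤ L ^ (1 : ℝ) := Real.rpow_le_rpow_of_exponent_le hL1 (by norm_num)
      _ = L := Real.rpow_one L
  have g5 : ∀ m, |(RK D w y m T : ℝ) - T * VK D w y| ≤ ε / 8 * (T * VK D w y) := by
    have hLs : 1 ≤ L ^ (3 * α / 2) := Real.one_le_rpow hL1 (by positivity)
    apply smallK κ hκ ε hε D hDκ w T y hA (L ^ (3 * α / 2)) ℓ cl _ hLs hcl hℓ1 _ (by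
      rw [← Real.rpow_mul hL0.le]
      have : 3 * α / 2 * (2 / 3 : ℝ) = α := by ring
      rw [this]
      exact hTlow) (by
      rw [← Real.rpow_mul hL0.le]
      have : 3 * α / 2 * (1 / 3 : ℝ) = α / 2 := by ring
      rw [this]
      exact f26)
    · apply hsm D w T y hDκ.le
      · have h2 : (x0 : ℝ) < y := by linarith
        exact_mod_cast h2.le
      · have h3 : ((y ^ K1 : ℕ) : ℝ) ≤ T := by
          push_cast
          calc (y : ℝ) ^ K1 ≤ (L ^ η) ^ K1 := pow_le_pow_left₀ (by linarith) hyle _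
            _ = L ^ (α / 6 : ℝ) := by rw [← Real.rpow_natCast, ← Real.rpow_mul hL0.le, hηK]
            _ ≤ L ^ α := Real.rpow_le_rpow_of_exponent_le hL1 (by linarith)
            _ ≤ T := hTlow
        exact_mod_cast h3
    · exact (div_le_div_of_nonneg_left hcl.le (log_pos_nat hy2) hlogy).trans (hVl y hy2)
  have hz12 : 2 ≤ z1 := by omega
  have hz1r : (1 : ℝ) < z1 := by exact_mod_cast hz12
  have hz10 : (0 : ℝ) < z1 := by linarith
  have hlogz1 : Real.log z1 ≤ c1 * L / ρ := by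
    rw [← Real.log_exp (c1 * L / ρ)]
    exact Real.log_le_log (by linarith) hz1le
  have hlogz10 : 0 < Real.log z1 := Real.log_pos hz1r
  have hlogz12 : c1 * L / (2 * ρ) ≤ Real.log z1 := by
    have h1 := hz1log (by
      have h4 : c1 / 2 * L / ℓ = c1 * L / ℓ / 2 := by ring
      rw [pow_one, h4] at f5
      have h5 : Real.exp (c1 * L / ℓ / 2) ≤ Real.exp (c1 * L / ρ / 2) := Real.exp_le_exp.2 (by linarith)
      linarith)
    calc c1 * L / (2 * ρ) = c1 * L / ρ / 2 := by field_simp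
      _ ≤ _ := h1
  have hT2n : 2 ≤ T := by omega
  have hlogT : Real.log T ≤ e0 * ℓ := by
    have h2 := Real.log_le_log hT0 hTup
    rwa [Real.log_pow] at h2
  have hlogT0 : 0 < Real.log T := log_pos_nat hT2n
  have hVz1 : Vz z1 ≤ Cu / (c1 * L / (2 * ρ)) :=
    (hVu z1 hz12).trans (div_le_div_of_nonneg_left hCu.le (by positivity) hlogz12)
  have hVz0 := Vz_pos z
  have hVz10 := Vz_pos z1
  have hinvW : 1 / Wp (Pyz z1 z) ≤ R0 * ρ := by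
    rw [Wp_Pyz' z1 z g3', one_div_div, div_le_iff₀ hVz0]
    calc Vz z1 ≤ Cu / (c1 * L / (2 * ρ)) := hVz1
      _ = R0 * ρ * (cl / (c2 * L)) := by
          rw [hR0]
          field_simp
      _ ≤ R0 * ρ * Vz z := mul_le_mul_of_nonneg_left hVzl (by positivity)
  have hWp20 : 0 < Wp (Pyz z1 z) := by
    rw [Wp_Pyz' z1 z g3']
    positivity
  have g6 : 18 * (κ : ℝ) ^ 2 * WK D (pQ w T z1) * T ≤ WK D (pQ w y T) * y := by
    apply hT_bound κ hκ D hDκ w y z1 z T hA L ℓ η δ cl R0 lam e0 g3 g3' (by omega) hL1 hℓ1 hcl hR00 (by linarith)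
      _ _ hlamup hδη hyhalf hT2 f3
    · exact (div_le_div_of_nonneg_left hcl.le hlogT0 hlogT).trans (hVl T hT2n)
    · exact hinvW.trans (mul_le_mul_of_nonneg_left hρℓ hR00.le)
  -- the density at `z1`
  have hVKz := VK_pos D w z hA
  have hVKz1 := VK_pos D w z1 hA
  have hVKy := VK_pos D w y hA
  have hVKle : VK D w z ≤ VK D w z1 := by
    rw [← VK_mul D w z1 z g3']
    have h1 : WK D (pQ w z1 z) ≤ 1 := WK_le_one' D _ fun p hp => (mem_pQ.1 hp).2.2.1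
    exact mul_le_of_le_one_right hVKz1.le h1
  have g7' : 2 * lam ≤ T * VK D w z1 := hT1.trans (mul_le_mul_of_nonneg_left hVKle hT0.le)
  have g7 : 45 * (κ : ℝ) * k ≤ 3 / 4 * (T * VK D w z1) := by linarith
  have hb1le : (b1 : ℝ) ≤ 2 * B * ρ := by
    rw [hb1]
    push_cast
    have h1 : (⌈ρ⌉₊ : ℝ) ≤ 2 * ρ := by linarith
    calc (B : ℝ) * ⌈ρ⌉₊ ≤ B * (2 * ρ) := mul_le_mul_of_nonneg_left h1 (Nat.cast_nonneg _)
      _ = 2 * B * ρ := by ring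
  have hE : ((JJ z1 : ℝ) + 2) * (((2 : ℝ) ^ 2 ^ JJ z1) ^ (10 * b1)) ^ 2 ≤ Real.exp (L / 16) :=
    hE_lem z1 b1 B L ℓ ρ c1 (by omega) hc1 hL0 hρ0 hLe rfl hρ1 hz12 hz1le hb1le f21
  -- number of primes in the supports
  have hMle : ((J' * (2 * b + 2 * J' + 1) : ℕ) : ℝ) ≤ KJ * (2 * b + 2 * KJ + 1) * ρ ^ 2 := by
    push_cast
    have h1 : (2 * (b : ℝ) + 2 * J' + 1) ≤ (2 * b + 2 * KJ + 1) * ρ := by
      have h3 : 2 * (b : ℝ) ≤ 2 * b * ρ := le_mul_of_one_le_right (by positivity) hρ1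
      linarith
    have h2 : (J' : ℝ) * (2 * b + 2 * J' + 1) ≤ (KJ * ρ) * ((2 * b + 2 * KJ + 1) * ρ) :=
      mul_le_mul hJ'3 h1 (by positivity) (by positivity)
    calc (J' : ℝ) * (2 * b + 2 * J' + 1) ≤ (KJ * ρ) * ((2 * b + 2 * KJ + 1) * ρ) := h2
      _ = _ := by ring
  have hD : (((2 : ℝ) ^ 2 ^ JJ z) ^ (10 * b) * (κ : ℝ) ^ (J' * (2 * b + 2 * J' + 1))) ^ (2 * k) ≤ Real.exp (L / 16) :=
    hD_lem κ k b z J' L ℓ ρ c2 KJ hk1 (by omega) hc2 hL0 hρ0.le hρℓ hKJ0.le hz2 hzle hMle f31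
  -- the groups
  have hgr : ∀ i : Fin (JJ z), (grp (JJ z) (Pyz z1 z) i).Nonempty → JJ z ≤ J' + (i : ℕ) :=
    gr_lem z z1 J' L ρ c1 c2 hL0 hρ0 hc10 hc20 hz2 hz12 hlogz hlogz12 hJ'1
  -- bad primes
  have hMbL : (Mb : ℝ) ≤ L := by
    rw [Real.rpow_one] at f27
    have h1 : 2 * ((1 : ℝ) + 1) * ρ / c1 ≤ 2 * ((1 : ℝ) + 1) / c1 * ℓ := by
      rw [div_mul_eq_mul_div]
      apply div_le_div_of_nonneg_right _ hc10.le
      exact mul_le_mul_of_nonneg_left hρℓ (by positivity)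
    linarith
  have hc1half : c1 ≤ 1 / 2 := by
    rw [hc1]
    apply one_div_le_one_div_of_le (by norm_num)
    linarith only [hBr]
  obtain ⟨hbad, hNb1⟩ := bad_lem κ e0 k A a T Mb z1 ε L hε hL1 hTup f28 hMbL ha hz1a f30
  have hPyz : ∀ p ∈ Pyz z1 z, p.Prime ∧ 2 * κ ≤ p := by
    intro p hp
    obtain ⟨h4, h5, h6⟩ := mem_Pyz.1 hp
    exact ⟨h6, by omega⟩
  have p1 : 0 ≤ 4 * Real.exp 1 * (45 * κ) * k / (ε / 4 / 8) ^ 2 := by positivity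
  have p2 : 0 ≤ 4 * Real.exp 3 / (ε / 4 / 8) ^ 2 := by positivity
  have p3 : (0 : ℝ) ≤ ((k * κ ^ 2 : ℕ) : ℝ) := Nat.cast_nonneg _
  have q1 : 4 * Real.exp 1 * (45 * κ) * k / (ε / 4 / 8) ^ 2 ≤ Λ := by linarith only [m3, p1, p2, p3]
  have q2 : 4 * Real.exp 3 / (ε / 4 / 8) ^ 2 ≤ Λ := by linarith only [m3, p1, p2, p3]
  have q3 : ((k * κ ^ 2 : ℕ) : ℝ) ≤ Λ := by linarith only [m3, p1, p2, p3]
  have q4 : 8 * ((J' : ℝ) + 1) / (ε / 4) ≤ Λ := by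
    rw [pow_one] at m4
    refine le_trans ?_ m4
    have h1 : 1 ≤ KJ * ρ := by
      calc (1 : ℝ) = 1 * 1 := by ring
        _ ≤ KJ * ρ := mul_le_mul hKJ1 hρ1 (by norm_num) hKJ0.le
    rw [div_le_iff₀ (by positivity)]
    have h2 : 64 * KJ / ε * ρ * (ε / 4) = 16 * (KJ * ρ) := by
      field_simp
      ring
    rw [h2]
    linarith only [h1, hJ'3]
  have q5 : ((2 * k : ℕ) : ℝ) * ((J' * (2 * b + 2 * J' + 1) : ℕ) : ℝ) * 2 ^ κ ≤ Λ := by
    refine le_trans ?_ m5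
    push_cast at hMle ⊢
    calc 2 * (k : ℝ) * (J' * (2 * b + 2 * J' + 1)) * 2 ^ κ ≤
          2 * k * (KJ * (2 * b + 2 * KJ + 1) * ρ ^ 2) * 2 ^ κ := by gcongr
      _ = _ := by ring
  have q6 : (1 / Wp (Pyz z1 z)) ^ (2 ^ (κ * (2 * k))) ≤ Λ := by
    rw [← hN]
    refine (pow_le_pow_left₀ (by positivity) hinvW N).trans ?_
    rw [mul_pow]
    exact m6
  have q7 : (1 / Wp (Pyz z1 z)) ^ (2 * κ) ≤ Λ := by
    refine (pow_le_pow_left₀ (by positivity) hinvW (2 * κ)).trans ?_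
    rw [mul_pow]
    exact m7
  have q8 : (1 / 2 : ℝ) ^ b1 ≤ 1 / lam ^ (A + 3) := by
    rw [hb1, pow_mul, one_div (lam ^ _)]
    calc ((1 / 2 : ℝ) ^ B) ^ ⌈ρ⌉₊ ≤ (Real.exp (-((A + 3 : ℕ) : ℝ))) ^ ⌈ρ⌉₊ := pow_le_pow_left₀ (by positivity) hBB _
      _ = Real.exp (⌈ρ⌉₊ * (-((A + 3 : ℕ) : ℝ))) := by rw [← Real.exp_nat_mul]
      _ ≤ Real.exp (-(((A + 3 : ℕ) : ℝ) * ρ)) := by
          apply Real.exp_le_exp.2
          have : ((A + 3 : ℕ) : ℝ) * ρ ≤ ((A + 3 : ℕ) : ℝ) * ⌈ρ⌉₊ := mul_le_mul_of_nonneg_left hceil1 (Nat.cast_nonneg _)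
          linarith only [this]
      _ = (lam ^ (A + 3))⁻¹ := by
          rw [Real.exp_neg, Real.exp_nat_mul, hρ, Real.exp_log hlampos]
  have hNb0 : 0 ≤ (((T * κ) ^ 2 * Mb : ℕ) : ℝ) * (T * κ) := by positivity
  have hBD := fun m => hBD_lem κ e0 k A a b b1 J' X y z z1 T w D ε L lam Λ ((((T * κ) ^ 2 * Mb : ℕ) : ℝ) * (T * κ)) m
    hκ hε hε1 hk hL1 hlam1 hlamL hΛ1 hΛk q1 q2 q3 q4 q5 q6 q7 hWp20 hPyz hA (g2.trans g3) (g5 m) g7' hT0 q8 ha hz1a hTup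
    hE hD f14 hNb0 hNb1 f29
  have key := discS κ hκ ε hε hε1 C0 C1 htwo w D hDκ hw hA q r T y z z1 k b1 b X J' Mb
    (X / Qy y * (7 / lam ^ (A + 2)) + 2 * Real.exp (L / 2)) (hsep T) hgr hk1 (by
      rw [hb1]
      calc C0 * (κ * (2 * k)) ≤ B := hBC
        _ ≤ B * ⌈ρ⌉₊ := Nat.le_mul_of_pos_right _ hceil3) (by
      rw [hb1]
      exact hB2.trans (Nat.le_mul_of_pos_right _ hceil3)) hbC hb2 g1 g2 g3 g3' g4 g5 g6 g7 hbad hBD
  have key2 : (((Icc 1 X).filter (fun l => ε * (T * VK D w z) <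
      |(RK D w z (q * l + r) T : ℝ) - T * VK D w z|)).card : ℝ) ≤
      Qy y * (1 + (X / Qy y * (7 / lam ^ (A + 2)) + 2 * Real.exp (L / 2))) := by
    refine le_trans (le_of_eq ?_) key
    congr!
  refine key2.trans ?_
  exact final_bd X y A L lam f19 m8 hlamL hX hy1 hyL f16 f20

end Pool.Agent.H36.GP
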