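import Mathlib
import Pool.Agent.H36.KT.All
import Pool.Agent.H36.GP.Ev

/-!
The law for the positions in short windows: all lengths at the same time, for arbitrary sets of primes of small density.
-/

set_option autoImplicit false

open Finset Filter

namespace Pool.Agent.H36.GP

open Pool.Agent.H36.RW Pool.Agent.H373R2.T7 Pool.Agent.H36.BF Pool.Agent.H36.BE Pool.Agent.H36.BT Pool.Agent.H36.KT

open Classical in
set_option maxHeartbeats 1600000 in
theorem scalesG (κ : ℕ) (hκ : 1 ≤ κ) (ε : ℝ) (hε : 0 < ε) (hε1 : ε ≤ 1) (α : ℝ) (hα : 0 < α) (hα1 : α ≤ 2 / 3) : ∃ δ0 : ℝ, 0 < δ0 ∧ δ0 ≤ 1 ∧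
    ∀ (A' : ℕ), 1 ≤ A' → ∃ c C lam0 : ℝ, 0 < c ∧ c ≤ 1 / 2 ∧ 1 ≤ C ∧ 1 ≤ lam0 ∧
    ∀ A : ℕ, ∀ᶠ L : ℝ in atTop, ∀ X : ℕ, Real.exp L ≤ X → ∀ lam : ℝ, lam0 ≤ lam → lam ≤ L ^ δ0 →
    ∀ (w : ℕ) (D : Finset ℕ), D.card = κ → 1 ≤ w → Adm D w → (∀ T p : ℕ, p.Prime → T < p → ¬ p ∣ w → Sep w T D p) →
    VK D w (zE c L) ≤ L ^ (-α) →
    ∀ q r : ℕ, (∀ p : ℕ, p.Prime → Real.log L < p → p ≤ zE c L → ¬ p ∣ w → ¬ p ∣ q) →
    (((Icc 1 X).filter (fun l => ∃ T : ℕ, lam ≤ T * VK D w (zE c L) ∧ (T : ℝ) ≤ L ^ A ∧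
      BadK ε D w (zE c L) (q * l + r) T)).card : ℝ) ≤
      C * (X / lam ^ A') + C * (L ^ A + 2) * (X / (L ^ δ0) ^ A') := by
  obtain ⟨δ0, hδ0, hδ1, hev⟩ := evG κ hκ (ε / 4) (by positivity) (by linarith) α hα hα1
  refine ⟨δ0, hδ0, by linarith, fun A' hA' => ?_⟩
  obtain ⟨c, lam1, hc, hc2, hlam1, h⟩ := hev A'
  set lam0 : ℝ := 32 / ε * lam1 with hlam0
  have h32 : 32 ≤ 32 / ε := by
    rw [le_div_iff₀ hε]
    linarith
  have hlam0' : 128 ≤ lam0 := by
    calc (128 : ℝ) = 32 * 4 := by norm_num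
      _ ≤ 32 / ε * lam1 := mul_le_mul h32 hlam1 (by norm_num) (by positivity)
  set Nb : ℕ := ⌈64 / ε⌉₊ with hNb
  have hNb1 : 64 / ε ≤ Nb := Nat.le_ceil _
  have hNb2 : (Nb : ℝ) ≤ 64 / ε + 1 := (Nat.ceil_lt_add_one (by positivity)).le
  set C : ℝ := 4 * (Nb + 2) * (64 / ε) ^ A' with hC
  have h64 : 1 ≤ 64 / ε := by
    rw [le_div_iff₀ hε]
    linarith
  have h64A : 1 ≤ (64 / ε) ^ A' := one_le_pow₀ h64
  have hNb0 : (0 : ℝ) ≤ Nb := Nat.cast_nonneg _
  have hC1 : 1 ≤ C := by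
    rw [hC]
    calc (1 : ℝ) = 1 * 1 := by norm_num
      _ ≤ 4 * (Nb + 2) * (64 / ε) ^ A' := mul_le_mul (by linarith) h64A (by norm_num) (by positivity)
  refine ⟨c, C, lam0, hc, hc2, hC1, by linarith, fun A => ?_⟩
  filter_upwards [h, eventually_ge_atTop (2 : ℝ)] with L h hL2
  intro X hX lam hlamlow hlam2 w D hDκ hw hA hsep hVα q r hq
  have hL1 : 1 ≤ L := by linarith
  have hL0 : 0 < L := by linarith
  have hlampos : 0 < lam := by linarith
  set M : ℝ := L ^ δ0 with hM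
  have hM0 : 0 < M := by positivity
  have hX0 : (0 : ℝ) < X := (Real.exp_pos L).trans_le hX
  set J : ℕ := Nat.log 2 ⌊M / lam⌋₊ with hJ
  have hMl : 1 ≤ M / lam := by
    rw [le_div_iff₀ hlampos]
    linarith
  have hfl : ⌊M / lam⌋₊ ≠ 0 := by
    have : 1 ≤ ⌊M / lam⌋₊ := by
      rw [Nat.one_le_floor_iff]
      exact hMl
    omega
  have hJ1 : (2 : ℝ) ^ J * lam ≤ M := by
    have h1 : 2 ^ J ≤ ⌊M / lam⌋₊ := Nat.pow_log_le_self 2 hfl
    have h2 : (2 : ℝ) ^ J ≤ M / lam := by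
      have h3 : ((2 ^ J : ℕ) : ℝ) ≤ (⌊M / lam⌋₊ : ℝ) := by exact_mod_cast h1
      push_cast at h3
      exact h3.trans (Nat.floor_le (by positivity))
    rwa [le_div_iff₀ hlampos] at h2
  have hJ2 : M / 2 ≤ 2 ^ J * lam := by
    have h1 : ⌊M / lam⌋₊ < 2 ^ (J + 1) := Nat.lt_pow_succ_log_self (by norm_num) _
    have h2 : M / lam < 2 ^ (J + 1) := by
      have h3 : M / lam < (⌊M / lam⌋₊ : ℝ) + 1 := Nat.lt_floor_add_one _
      have h4 : ((⌊M / lam⌋₊ + 1 : ℕ) : ℝ) ≤ ((2 ^ (J + 1) : ℕ) : ℝ) := by exact_mod_cast h1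
      push_cast at h4
      linarith
    rw [div_lt_iff₀ hlampos, pow_succ] at h2
    linarith
  have hscale : ∀ j : ℕ, j ≤ J → (2 : ℝ) ^ j * lam ≤ M := by
    intro j hj
    have h1 : (2 : ℝ) ^ j ≤ 2 ^ J := pow_le_pow_right₀ (by norm_num) hj
    have h2 := mul_le_mul_of_nonneg_right h1 hlampos.le
    linarith
  have hsc1 : ∀ j : ℕ, lam ≤ 2 ^ j * lam := fun j => le_mul_of_one_le_left hlampos.le (one_le_pow₀ (by norm_num))
  set z := zE c L with hz
  set V := VK D w z with hV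
  have hV0 : 0 < V := VK_pos D w z hA
  have hV1 : V ≤ 1 := VK_le_one D w z
  -- the blocks
  set T0 : ℕ → ℕ := fun j => ⌈ε / 16 * ((2 : ℝ) ^ j * lam) / V⌉₊ with hT0
  have hu : ∀ j : ℕ, 8 ≤ ε / 16 * ((2 : ℝ) ^ j * lam) := by
    intro j
    have h1 : 32 / ε * lam1 ≤ 2 ^ j * lam := hlamlow.trans (hsc1 j)
    calc (8 : ℝ) ≤ 2 * lam1 := by linarith
      _ = ε / 16 * (32 / ε * lam1) := by field_simp; ring
      _ ≤ _ := mul_le_mul_of_nonneg_left h1 (by positivity)
  have hT01 : ∀ j, ε / 16 * ((2 : ℝ) ^ j * lam) ≤ T0 j * V := by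
    intro j
    have : ε / 16 * ((2 : ℝ) ^ j * lam) / V ≤ T0 j := Nat.le_ceil _
    rwa [div_le_iff₀ hV0] at this
  have hT02 : ∀ j, T0 j * V ≤ 2 * (ε / 16 * ((2 : ℝ) ^ j * lam)) := by
    intro j
    have h1 : (T0 j : ℝ) < ε / 16 * ((2 : ℝ) ^ j * lam) / V + 1 := Nat.ceil_lt_add_one (by positivity)
    have h2 : T0 j * V ≤ (ε / 16 * ((2 : ℝ) ^ j * lam) / V + 1) * V := mul_le_mul_of_nonneg_right h1.le hV0.le
    have h3 : (ε / 16 * ((2 : ℝ) ^ j * lam) / V + 1) * V = ε / 16 * ((2 : ℝ) ^ j * lam) + V := by field_simp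
    rw [h3] at h2
    have := hu j
    linarith
  have hT0pos : ∀ j, 0 < T0 j := by
    intro j
    apply Nat.ceil_pos.2
    have := hu j
    positivity
  set K : ℕ := ⌊L ^ A⌋₊ with hK
  have hKle : (K : ℝ) ≤ L ^ A := Nat.floor_le (by positivity)
  -- one window
  have hone : ∀ j : ℕ, j ≤ J → ∀ r' : ℕ, (((Icc 1 X).filter (fun l => BadK (ε / 4) D w z (q * l + r') (T0 j))).card : ℝ) ≤
      X / (ε / 32 * (2 ^ j * lam)) ^ A' := by
    intro j hj r'
    have h1 := h X hX (ε / 32 * (2 ^ j * lam)) (by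
      have h2 : 32 / ε * lam1 ≤ 2 ^ j * lam := hlamlow.trans (hsc1 j)
      calc lam1 = ε / 32 * (32 / ε * lam1) := by field_simp
        _ ≤ _ := mul_le_mul_of_nonneg_left h2 (by positivity)) (by
      have h3 : ε / 32 * (2 ^ j * lam) ≤ 1 * (2 ^ j * lam) := mul_le_mul_of_nonneg_right (by linarith) (by positivity)
      have := hscale j hj
      linarith) w D hDκ hw hA hsep hVα (T0 j) (by
      have := hT01 j
      linarith) (by
      have h4 := hT02 j
      have h5 : 0 ≤ ε * (2 ^ j * lam) := by positivity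
      linarith) q r' hq
    unfold BadK
    refine le_trans (le_of_eq ?_) h1
    congr!
  -- the inclusion
  have hsub : ((Icc 1 X).filter (fun l => ∃ T : ℕ, lam ≤ T * V ∧ (T : ℝ) ≤ L ^ A ∧
      BadK ε D w z (q * l + r) T)) ⊆
      (range (J + 1)).biUnion (fun j => (range (Nb + 1)).biUnion (fun i => (Icc 1 X).filter (fun l =>
        BadK (ε / 4) D w z (q * l + (r + w * (i * T0 j))) (T0 j)))) ∪
      (range (K + 1)).biUnion (fun i => (Icc 1 X).filter (fun l =>
        BadK (ε / 4) D w z (q * l + (r + w * (i * T0 J))) (T0 J))) := by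
    intro l hl
    rw [mem_filter] at hl
    obtain ⟨hl1, T, hT1, hT2, hbad⟩ := hl
    by_contra hno
    rw [mem_union] at hno
    push Not at hno
    obtain ⟨hno1, hno2⟩ := hno
    have hgood1 : ∀ j ≤ J, ∀ i < Nb + 1, |(RK D w z (q * l + r + w * (i * T0 j)) (T0 j) : ℝ) - T0 j * V| ≤
        ε / 4 * (T0 j * V) := by
      intro j hj i hi
      by_contra h3
      apply hno1
      rw [mem_biUnion]
      refine ⟨j, mem_range.2 (by omega), mem_biUnion.2 ⟨i, mem_range.2 hi, mem_filter.2 ⟨hl1, ?_⟩⟩⟩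
      unfold BadK
      rw [← add_assoc]
      exact not_le.1 h3
    have hgood : ∀ i < K + 1, |(RK D w z (q * l + r + w * (i * T0 J)) (T0 J) : ℝ) - T0 J * V| ≤
        ε / 4 * (T0 J * V) := by
      intro i hi
      by_contra h3
      apply hno2
      rw [mem_biUnion]
      refine ⟨i, mem_range.2 hi, mem_filter.2 ⟨hl1, ?_⟩⟩
      unfold BadK
      rw [← add_assoc]
      exact not_le.1 h3
    have hTK : T ≤ K := by
      rw [hK]
      exact Nat.le_floor hT2
    apply absurd hbad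
    unfold BadK
    rw [not_lt]
    have hblock : ∀ j, 2 ^ j * lam ≤ T * V → (T0 j : ℝ) ≤ ε / 4 * T := by
      intro j hj
      have h1 := hT02 j
      have h2 : T0 j * V ≤ (ε / 4 * T) * V := by
        have h3 : ε / 8 * (2 ^ j * lam) ≤ ε / 8 * (T * V) := mul_le_mul_of_nonneg_left hj (by positivity)
        have h4 : 0 ≤ ε * (T * V) := by positivity
        linarith
      exact le_of_mul_le_mul_right h2 hV0
    rcases lt_or_ge ((T : ℝ) * V) (2 ^ J * lam) with hTJ | hTJ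
    · -- between two scales
      have hex : ∃ j, (T : ℝ) * V < 2 ^ j * lam := ⟨J, hTJ⟩
      have h1 := Nat.find_spec hex
      have h2 : Nat.find hex ≤ J := Nat.find_min' hex hTJ
      have h0 : Nat.find hex ≠ 0 := by
        intro h0
        rw [h0] at h1
        rw [pow_zero, one_mul] at h1
        linarith
      obtain ⟨j, hj⟩ := Nat.exists_eq_succ_of_ne_zero h0
      have h3 : ¬ (T : ℝ) * V < 2 ^ j * lam := Nat.find_min hex (by omega)
      rw [hj] at h1
      rw [not_lt] at h3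
      have hjJ : j + 1 ≤ J := by omega
      have h4 : T / T0 j ≤ Nb := by
        have h5 : ((T / T0 j : ℕ) : ℝ) ≤ Nb := by
          refine (Nat.cast_div_le).trans (le_trans ?_ hNb1)
          rw [div_le_iff₀ (by exact_mod_cast hT0pos j)]
          have h6 : (T : ℝ) * V ≤ 64 / ε * T0 j * V := by
            have h7 := hT01 j
            have h8 : 32 / ε * (ε / 16 * (2 ^ j * lam)) ≤ 32 / ε * (T0 j * V) := mul_le_mul_of_nonneg_left h7 (by positivity)
            have h9 : 32 / ε * (ε / 16 * (2 ^ j * lam)) = 2 * (2 ^ j * lam) := by field_simp; ring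
            rw [h9] at h8
            rw [Nat.succ_eq_add_one, pow_succ] at h1
            have h10 : 64 / ε * T0 j * V = 2 * (32 / ε * (T0 j * V)) := by ring
            have h11 : 0 ≤ 32 / ε * (T0 j * V) := by positivity
            rw [h10]
            linarith
          exact le_of_mul_le_mul_right h6 hV0
        exact_mod_cast h5
      exact long_goodK D w z (q * l + r) (T0 j) T (T / T0 j) V ε hV0 hε hε1 rfl (hT0pos j) (hblock j h3)
        (fun i hi => hgood1 j (by omega) i (by omega))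
    · have h4 : T / T0 J ≤ K := (Nat.div_le_self _ _).trans hTK
      exact long_goodK D w z (q * l + r) (T0 J) T (T / T0 J) V ε hV0 hε hε1 rfl (hT0pos J) (hblock J hTJ)
        (fun i hi => hgood i (by omega))
  have hcard : (((Icc 1 X).filter (fun l => ∃ T : ℕ, lam ≤ T * V ∧ (T : ℝ) ≤ L ^ A ∧
      BadK ε D w z (q * l + r) T)).card : ℝ) ≤
      ∑ j ∈ range (J + 1), ∑ i ∈ range (Nb + 1), (((Icc 1 X).filter (fun l =>
        BadK (ε / 4) D w z (q * l + (r + w * (i * T0 j))) (T0 j))).card : ℝ) +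
      ∑ i ∈ range (K + 1), (((Icc 1 X).filter (fun l =>
        BadK (ε / 4) D w z (q * l + (r + w * (i * T0 J))) (T0 J))).card : ℝ) := by
    have h1 := (card_le_card hsub).trans ((card_union_le _ _).trans (add_le_add
      (card_biUnion_le.trans (sum_le_sum fun j _ => card_biUnion_le)) card_biUnion_le))
    exact_mod_cast h1
  refine hcard.trans (add_le_add ?_ ?_)
  · refine (sum_le_sum fun j hj => sum_le_sum fun i _ => hone j (by have := mem_range.1 hj; omega) _).trans ?_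
    have h1 : ∀ j ∈ range (J + 1), ∑ _i ∈ range (Nb + 1), (X : ℝ) / (ε / 32 * (2 ^ j * lam)) ^ A' =
        ((Nb + 1) * (32 / ε) ^ A') * (X / (2 ^ j * lam) ^ A') := by
      intro j _
      rw [sum_const, card_range, nsmul_eq_mul, mul_pow, div_pow, div_pow]
      push_cast
      field_simp
    rw [sum_congr rfl h1, ← mul_sum]
    have h2 := scale_sum J A' hA' lam X hlampos hX0.le
    have h3 : (32 / ε) ^ A' ≤ (64 / ε) ^ A' := by
      apply pow_le_pow_left₀ (by positivity)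
      exact div_le_div_of_nonneg_right (by norm_num) hε.le
    calc ((Nb : ℝ) + 1) * (32 / ε) ^ A' * ∑ j ∈ range (J + 1), X / (2 ^ j * lam) ^ A' ≤
          (Nb + 1) * (64 / ε) ^ A' * (2 * (X / lam ^ A')) := by gcongr
      _ = 2 * (Nb + 1) * (64 / ε) ^ A' * (X / lam ^ A') := by ring
      _ ≤ C * (X / lam ^ A') := by
          apply mul_le_mul_of_nonneg_right _ (by positivity)
          rw [hC]
          apply mul_le_mul_of_nonneg_right _ (by positivity)
          linarith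
  · refine (sum_le_sum fun i _ => hone J le_rfl _).trans ?_
    rw [sum_const, card_range, nsmul_eq_mul]
    push_cast
    have h1 : (X : ℝ) / (ε / 32 * (2 ^ J * lam)) ^ A' ≤ (64 / ε) ^ A' * (X / M ^ A') := by
      calc (X : ℝ) / (ε / 32 * (2 ^ J * lam)) ^ A' ≤ X / (ε / 32 * (M / 2)) ^ A' := by
            apply div_le_div_of_nonneg_left hX0.le (by positivity)
            apply pow_le_pow_left₀ (by positivity)
            exact mul_le_mul_of_nonneg_left hJ2 (by positivity)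
        _ = (64 / ε) ^ A' * (X / M ^ A') := by
            have : ε / 32 * (M / 2) = M * (ε / 64) := by ring
            rw [this, mul_pow, div_pow, div_pow]
            field_simp
    have hLA : (0 : ℝ) ≤ L ^ A := by positivity
    calc ((K : ℝ) + 1) * (X / (ε / 32 * (2 ^ J * lam)) ^ A') ≤ (L ^ A + 2) * ((64 / ε) ^ A' * (X / M ^ A')) := by
          apply mul_le_mul (by linarith) h1 (by positivity) (by positivity)
      _ = (64 / ε) ^ A' * (L ^ A + 2) * (X / M ^ A') := by ring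
      _ ≤ C * (L ^ A + 2) * (X / M ^ A') := by
          apply mul_le_mul_of_nonneg_right _ (by positivity)
          apply mul_le_mul_of_nonneg_right _ (by positivity)
          rw [hC]
          apply le_mul_of_one_le_left (by positivity)
          linarith

open Classical in
set_option maxHeartbeats 1600000 in
theorem allG (κ : ℕ) (hκ : 1 ≤ κ) (ε : ℝ) (hε : 0 < ε) (hε1 : ε ≤ 1) (α : ℝ) (hα : 0 < α) (hα1 : α ≤ 2 / 3) (A : ℕ) : ∃ c C : ℝ, 0 < c ∧ c ≤ 1 / 2 ∧ 0 < C ∧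
    ∀ᶠ L : ℝ in atTop, ∀ X : ℕ, Real.exp L ≤ X → ∀ lam : ℝ, 1 ≤ lam →
    ∀ (w : ℕ) (D : Finset ℕ), D.card = κ → 1 ≤ w → Adm D w → (∀ T p : ℕ, p.Prime → T < p → ¬ p ∣ w → Sep w T D p) →
    VK D w (zE c L) ≤ L ^ (-α) →
    ∀ q r : ℕ, (∀ p : ℕ, p.Prime → Real.log L < p → p ≤ zE c L → ¬ p ∣ w → ¬ p ∣ q) →
    (((Icc 1 X).filter (fun l => ∃ T : ℕ, lam ≤ T * VK D w (zE c L) ∧ (T : ℝ) ≤ L ^ A ∧
      BadK ε D w (zE c L) (q * l + r) T)).card : ℝ) ≤ C * (X / lam ^ A) := by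
  obtain ⟨δ0, hδ0, hδ1, hsc⟩ := scalesG κ hκ ε hε hε1 α hα hα1
  obtain ⟨A1, hA1⟩ := exists_nat_ge ((A ^ 2 + 2 * A + 2 : ℝ) / δ0)
  set A' := max A1 (A + 1) with hA'
  have hA'1 : 1 ≤ A' := by have := le_max_right A1 (A + 1); omega
  have hA'A : A ≤ A' := by have := le_max_right A1 (A + 1); omega
  have hδA : (A ^ 2 + 2 * A + 2 : ℝ) ≤ δ0 * A' := by
    have h1 : (A1 : ℝ) ≤ A' := by exact_mod_cast le_max_left _ _
    rw [div_le_iff₀ hδ0] at hA1
    have := mul_le_mul_of_nonneg_right h1 hδ0.le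
    linarith
  obtain ⟨c, C, lam0, hc, hc2, hC, hlam0, h⟩ := hsc A' hA'1
  refine ⟨c, 2 * C + lam0 ^ A, hc, hc2, by positivity, ?_⟩
  filter_upwards [h A, eventually_ge_atTop (3 : ℝ),
    (tendsto_rpow_atTop hδ0).eventually_ge_atTop lam0] with L h hL2 hL4
  intro X hX lam hlam1 w D hDκ hw hAd hsep hVα q r hq
  have hL1 : 1 ≤ L := by linarith
  have hL0 : 0 < L := by linarith
  have hlampos : 0 < lam := by linarith
  have hX0 : (0 : ℝ) < X := (Real.exp_pos L).trans_le hX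
  set M : ℝ := L ^ δ0 with hM
  have hM0 : 0 < M := by positivity
  have hC1 : (1 : ℝ) ≤ 2 * C + lam0 ^ A := by
    have : 0 < lam0 ^ A := by positivity
    linarith
  set z := zE c L with hz
  set V := VK D w z with hV
  have hV0 : 0 < V := VK_pos D w z hAd
  have hV1 : V ≤ 1 := VK_le_one D w z
  -- trivial range
  by_cases hbig : L ^ A < lam
  · have h0 : (Icc 1 X).filter (fun l => ∃ T : ℕ, lam ≤ T * V ∧ (T : ℝ) ≤ L ^ A ∧
      BadK ε D w z (q * l + r) T) = ∅ := by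
      rw [filter_eq_empty_iff]
      rintro l _ ⟨T, h1, h2, _⟩
      have : (T : ℝ) * V ≤ T := mul_le_of_le_one_right (Nat.cast_nonneg _) hV1
      linarith
    rw [h0, card_empty, Nat.cast_zero]
    positivity
  have hlamA : lam ≤ L ^ A := not_lt.1 hbig
  by_cases hsm : lam < lam0
  · have h1 : (((Icc 1 X).filter (fun l => ∃ T : ℕ, lam ≤ T * V ∧ (T : ℝ) ≤ L ^ A ∧
      BadK ε D w z (q * l + r) T)).card : ℝ) ≤ X := by
      have : ((Icc 1 X).filter (fun l => ∃ T : ℕ, lam ≤ T * V ∧ (T : ℝ) ≤ L ^ A ∧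
        BadK ε D w z (q * l + r) T)).card ≤ X := by
        refine (card_filter_le _ _).trans ?_
        rw [Nat.card_Icc]
        omega
      exact_mod_cast this
    refine h1.trans ?_
    rw [mul_div_assoc', le_div_iff₀ (by positivity)]
    have h2 : lam ^ A ≤ lam0 ^ A := pow_le_pow_left₀ hlampos.le hsm.le A
    calc (X : ℝ) * lam ^ A ≤ X * (2 * C + lam0 ^ A) := mul_le_mul_of_nonneg_left (by linarith) hX0.le
      _ = _ := mul_comm _ _
  push Not at hsm
  -- main range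
  set lam' := min lam M with hlam'
  have hl1 : lam0 ≤ lam' := le_min hsm hL4
  have hl2 : lam' ≤ M := min_le_right _ _
  have hl3 : lam' ≤ lam := min_le_left _ _
  have hl0 : 0 < lam' := by linarith
  have h1 := h X hX lam' hl1 hl2 w D hDκ hw hAd hsep hVα q r hq
  have hsub : (Icc 1 X).filter (fun l => ∃ T : ℕ, lam ≤ T * V ∧ (T : ℝ) ≤ L ^ A ∧
      BadK ε D w z (q * l + r) T) ⊆
      (Icc 1 X).filter (fun l => ∃ T : ℕ, lam' ≤ T * V ∧ (T : ℝ) ≤ L ^ A ∧
      BadK ε D w z (q * l + r) T) := by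
    intro l hl
    rw [mem_filter] at hl ⊢
    obtain ⟨h2, T, h3, h4, h5⟩ := hl
    exact ⟨h2, T, hl3.trans h3, h4, h5⟩
  have h2 : (((Icc 1 X).filter (fun l => ∃ T : ℕ, lam ≤ T * V ∧ (T : ℝ) ≤ L ^ A ∧
      BadK ε D w z (q * l + r) T)).card : ℝ) ≤
      (((Icc 1 X).filter (fun l => ∃ T : ℕ, lam' ≤ T * V ∧ (T : ℝ) ≤ L ^ A ∧
      BadK ε D w z (q * l + r) T)).card : ℝ) := by
    exact_mod_cast card_le_card hsub
  refine h2.trans (h1.trans ?_)
  -- powers of M
  have hMA : L ^ (A ^ 2 + 2 * A + 2) ≤ M ^ A' := by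
    calc L ^ (A ^ 2 + 2 * A + 2) = L ^ (A ^ 2 + 2 * A + 2 : ℝ) := by
          rw [← Real.rpow_natCast]
          push_cast
          rfl
      _ ≤ L ^ (δ0 * A') := Real.rpow_le_rpow_of_exponent_le hL1 hδA
      _ = M ^ A' := by rw [hM, Real.rpow_mul hL0.le, Real.rpow_natCast]
  have hlamAA : lam ^ A ≤ L ^ (A ^ 2) := by
    calc lam ^ A ≤ (L ^ A) ^ A := pow_le_pow_left₀ hlampos.le hlamA A
      _ = L ^ (A ^ 2) := by rw [← pow_mul, sq]
  -- second term
  have hsec : (L ^ A + 2) * (X / M ^ A') ≤ X / lam ^ A := by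
    rw [mul_div_assoc', div_le_div_iff₀ (by positivity) (by positivity)]
    have e1 : L ^ A + 2 ≤ L ^ A * L := by
      have h3 : 1 ≤ L ^ A := one_le_pow₀ hL1
      nlinarith
    calc (L ^ A + 2) * X * lam ^ A ≤ (L ^ A * L) * X * L ^ (A ^ 2) := by gcongr
      _ = X * L ^ (A ^ 2 + A + 1) := by
          rw [pow_add, pow_add, pow_one]
          ring
      _ ≤ X * L ^ (A ^ 2 + 2 * A + 2) := by
          apply mul_le_mul_of_nonneg_left _ hX0.le
          exact pow_le_pow_right₀ hL1 (by omega)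
      _ ≤ X * M ^ A' := mul_le_mul_of_nonneg_left hMA hX0.le
  -- first term
  have hfirst : X / lam' ^ A' ≤ X / lam ^ A := by
    apply div_le_div_of_nonneg_left hX0.le (by positivity)
    rcases le_total lam M with h5 | h5
    · have : lam' = lam := min_eq_left h5
      rw [this]
      exact pow_le_pow_right₀ hlam1 hA'A
    · have : lam' = M := min_eq_right h5
      rw [this]
      refine hlamAA.trans (le_trans ?_ hMA)
      exact pow_le_pow_right₀ hL1 (by omega)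
  have hpos : 0 ≤ X / lam ^ A := by positivity
  have hlamA0 : 0 ≤ lam0 ^ A := by positivity
  have h7 : 0 ≤ lam0 ^ A * (X / lam ^ A) := mul_nonneg hlamA0 hpos
  have h8 : C * (X / lam' ^ A') ≤ C * (X / lam ^ A) := mul_le_mul_of_nonneg_left hfirst (by linarith)
  have h9 : C * (L ^ A + 2) * (X / M ^ A') ≤ C * (X / lam ^ A) := by
    rw [mul_assoc]
    exact mul_le_mul_of_nonneg_left hsec (by linarith)
  calc C * (X / lam' ^ A') + C * (L ^ A + 2) * (X / M ^ A') ≤ C * (X / lam ^ A) + C * (X / lam ^ A) := add_le_add h8 h9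
    _ ≤ (2 * C + lam0 ^ A) * (X / lam ^ A) := by
        have : (2 * C + lam0 ^ A) * (X / lam ^ A) = C * (X / lam ^ A) + C * (X / lam ^ A) + lam0 ^ A * (X / lam ^ A) := by
          ring
        linarith

end Pool.Agent.H36.GP
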