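import Mathlib
import Pool.Agent.H36.LH.MomT
import Pool.Agent.H36.GP.All

/-!
The law for windows of every length, for arbitrary sets of primes of small density.
-/

set_option autoImplicit false

open Finset Filter

namespace Pool.Agent.H36.GP

open Pool.Agent.H36.RW Pool.Agent.H373R2.T7 Pool.Agent.H36.BF Pool.Agent.H36.BE
open Pool.Agent.H36.KT Pool.Agent.H36.LH

open Classical in
/-- every length -/
theorem allTG (κ : ℕ) (hκ : 1 ≤ κ) (ε : ℝ) (hε : 0 < ε) (hε1 : ε ≤ 1) (α : ℝ) (hα : 0 < α) (hα1 : α ≤ 2 / 3) (A : ℕ) :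
    ∃ c C : ℝ, 0 < c ∧ c ≤ 1 / 2 ∧ 0 < C ∧ ∀ᶠ L : ℝ in atTop, ∀ X : ℕ, Real.exp L ≤ X → ∀ lam : ℝ, 1 ≤ lam →
    ∀ (w : ℕ) (D : Finset ℕ), D.card = κ → 1 ≤ w → Adm D w → (∀ T p : ℕ, p.Prime → T < p → ¬ p ∣ w → Sep w T D p) →
    VK D w (zE c L) ≤ L ^ (-α) → ∀ r N : ℕ,
    (((Ioc N (N + X)).filter (fun n => ∃ T : ℕ, lam ≤ T * VK D w (zE c L) ∧
      BadK ε D w (zE c L) (w * n + r) T)).card : ℝ) ≤ C * (X / lam ^ A) := by
  obtain ⟨B, hB, c0, hc0, hc02, hlong⟩ := lh_all κ hκ ε hε A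
  set A0 := max A (B + 1) with hA0
  obtain ⟨cK, CK, hcK, hcK2, hCK, hshort⟩ := allG κ hκ ε hε hε1 α hα hα1 A0
  set c := min cK c0 with hc
  have hcpos : 0 < c := lt_min hcK hc0
  set ρ := c / cK with hρ
  have hρ0 : 0 < ρ := div_pos hcpos hcK
  have hρ1 : ρ ≤ 1 := by
    rw [hρ, div_le_one hcK]
    exact min_le_left _ _
  refine ⟨c, CK + 1, hcpos, (min_le_left _ _).trans hcK2, by linarith, ?_⟩
  have ht : Tendsto (fun L : ℝ => ρ * L) atTop atTop := tendsto_id.const_mul_atTop hρ0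
  filter_upwards [ht.eventually hshort, hlong c hcpos (min_le_right _ _), eventually_ge_atTop (1 : ℝ),
    eventually_ge_atTop (1 / ρ ^ (B + 1)), ht.eventually_ge_atTop 1] with L h1 h2 hL1 hL2 hL3
  intro X hX lam hlam w D hDκ hw hA hsep hVα r N
  have hL0 : 0 < L := by linarith
  have hX0 : (0 : ℝ) < X := (Real.exp_pos L).trans_le hX
  have hz : zE cK (ρ * L) = zE c L := by
    unfold zE
    congr 2
    rw [hρ]
    field_simp
  have hexp : Real.exp (ρ * L) ≤ X := by
    refine le_trans (Real.exp_le_exp.2 ?_) hX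
    nlinarith
  have hVα' : VK D w (zE cK (ρ * L)) ≤ (ρ * L) ^ (-α) := by
    rw [hz]
    refine hVα.trans ?_
    apply Real.rpow_le_rpow_of_nonpos (by positivity)
    · nlinarith
    · linarith
  have k1 := h1 X hexp lam hlam w D hDκ hw hA hsep hVα' w (w * N + r)
    (fun p _ _ _ h3 => h3)
  rw [hz] at k1
  set lam' := max (L ^ B) lam with hlam'
  have k2 := h2 X hX (RT D w r) (RT_per κ D hDκ.le w r) (RT_adm D w r hA) N lam' (le_max_left _ _)
  rw [RT_V] at k2
  set Bd := (Ioc N (N + X)).filter (fun n => ∃ T : ℕ, lam ≤ T * VK D w (zE c L) ∧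
      BadK ε D w (zE c L) (w * n + r) T) with hBd
  set B1 := (Icc 1 X).filter (fun l => ∃ T : ℕ, lam ≤ T * VK D w (zE c L) ∧ (T : ℝ) ≤ (ρ * L) ^ A0 ∧
      BadK ε D w (zE c L) (w * l + (w * N + r)) T) with hB1
  set B2 := (Ioc N (N + X)).filter (fun n => ∃ T : ℕ, lam' ≤ T ∧ ε * (T * VK D w (zE c L)) <
      |(SC (RT D w r) (pz (zE c L)) n T : ℝ) - T * VK D w (zE c L)|) with hB2
  have hV1 : VK D w (zE c L) ≤ 1 := VK_le_one D w _
  have hLpow : L ^ B ≤ (ρ * L) ^ A0 := by
    calc L ^ B ≤ (ρ * L) ^ (B + 1) := by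
          rw [mul_pow, pow_succ L B]
          have h3 : 1 ≤ ρ ^ (B + 1) * L := by
            rw [div_le_iff₀ (by positivity)] at hL2
            linarith
          have h4 : 0 ≤ L ^ B := by positivity
          nlinarith
      _ ≤ (ρ * L) ^ A0 := pow_le_pow_right₀ hL3 (le_max_right _ _)
  have hsub : Bd ⊆ B1.image (fun l => N + l) ∪ B2 := by
    intro n hn
    rw [hBd, mem_filter] at hn
    obtain ⟨hn1, T, hT1, hT2⟩ := hn
    rw [mem_union]
    by_cases h3 : (T : ℝ) ≤ (ρ * L) ^ A0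
    · left
      rw [mem_image]
      have hn' := mem_Ioc.1 hn1
      refine ⟨n - N, ?_, by omega⟩
      rw [hB1, mem_filter, mem_Icc]
      refine ⟨by omega, T, hT1, h3, ?_⟩
      have e : w * (n - N) + (w * N + r) = w * n + r := by
        rw [← add_assoc, ← mul_add]
        congr 2
        omega
      rw [e]
      exact hT2
    · right
      rw [not_le] at h3
      rw [hB2, mem_filter]
      refine ⟨hn1, T, ?_, ?_⟩
      · rw [hlam']
        apply max_le
        · exact hLpow.trans h3.le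
        · refine hT1.trans ?_
          exact mul_le_of_le_one_right (Nat.cast_nonneg T) hV1
      · rw [RT_SC]
        exact hT2
  have hcard : (Bd.card : ℝ) ≤ B1.card + B2.card := by
    have h3 : Bd.card ≤ B1.card + B2.card :=
      (card_le_card hsub).trans ((card_union_le _ _).trans (Nat.add_le_add_right card_image_le _))
    exact_mod_cast h3
  have hlam0 : 0 < lam := by linarith
  have k1' : (B1.card : ℝ) ≤ CK * (X / lam ^ A) := by
    refine k1.trans (mul_le_mul_of_nonneg_left ?_ hCK.le)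
    apply div_le_div_of_nonneg_left hX0.le (by positivity)
    exact pow_le_pow_right₀ hlam (le_max_left _ _)
  have k2' : (B2.card : ℝ) ≤ X / lam ^ A := by
    refine k2.trans ?_
    apply div_le_div_of_nonneg_left hX0.le (by positivity)
    exact pow_le_pow_left₀ hlam0.le (le_max_right _ _) _
  calc (Bd.card : ℝ) ≤ B1.card + B2.card := hcard
    _ ≤ CK * (X / lam ^ A) + X / lam ^ A := add_le_add k1' k2'
    _ = (CK + 1) * (X / lam ^ A) := by ring



/-- primes larger than the length separate the positions -/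
lemma sep0 (w T p : ℕ) (hp : p.Prime) (hT : T < p) (hw : ¬ p ∣ w) : Sep w T {0} p := by
  intro h hh h' hh' d hd d' hd' hdvd
  rw [mem_singleton] at hd hd'
  subst hd hd'
  rw [mem_Icc] at hh hh'
  have e : ((w * h + 0 : ℕ) : ℤ) - ((w * h' + 0 : ℕ) : ℤ) = (w : ℤ) * ((h : ℤ) - h') := by
    push_cast
    ring
  rw [e] at hdvd
  have hp' : Prime (p : ℤ) := Nat.prime_iff_prime_int.1 hp
  rcases hp'.dvd_or_dvd hdvd with h1 | h1
  · exact absurd (Int.natCast_dvd_natCast.1 h1) hw
  · have h2 : (h : ℤ) - h' = 0 := by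
      apply Int.eq_zero_of_abs_lt_dvd h1
      rw [abs_lt]
      constructor <;> omega
    have h3 : h = h' := by omega
    rw [h3]

end Pool.Agent.H36.GP
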