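import Mathlib
import Pool.Agent.H36.LH.AsyG
import Pool.Agent.H36.GP.AllT
import Pool.Graph.R_seed8.TH464.PO.Gen

/-!
The density of a sifted set and the conditions of the Poisson law, for arbitrary sets of primes of small density.
-/

set_option autoImplicit false

open Finset Filter Topology

namespace Pool.Agent.H36.GP

open Pool.Agent.H36.RW Pool.Agent.H373R2.T7 Pool.Agent.H36.BF Pool.Agent.H36.BE
open Pool.Agent.H36.KT Pool.Agent.H36.LH
open Pool.Agent.W123.RP Pool.Agent.W123.RU Pool.Agent.TH464.PO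

lemma nu0_one (p : ℕ) : nu p {0} = 1 := by
  unfold nu
  rw [image_singleton, card_singleton]

lemma adm0 (w : ℕ) : Adm {0} w := by
  intro p hp _
  rw [nu0_one p]
  exact hp.one_lt

lemma VK0 (w z : ℕ) : VK {0} w z = Wp (p0 w z) := by
  unfold VK WK Wp
  apply Finset.prod_congr rfl
  intro p _
  rw [nu0_one]
  simp

lemma VK0_pos (w z : ℕ) : 0 < VK {0} w z := VK_pos {0} w z (adm0 w)

lemma VK0_ge (w z : ℕ) : Vz z ≤ VK {0} w z := by
  rw [VK0]
  have h : Vz z = Wp (pz z) := rfl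
  rw [h]
  apply Wp_mono
  · intro p hp
    rw [mem_p0] at hp
    exact mem_pz.2 ⟨hp.1, hp.2.1⟩
  · intro p hp
    exact (mem_pz.1 hp).2

lemma VK0_inv : ∃ C : ℝ, 0 < C ∧ ∀ y : ℕ, 2 ≤ y → ∀ w : ℕ, 1 / VK {0} w y ≤ C * Real.log y := by
  obtain ⟨c, hc, h⟩ := Vz_lower
  refine ⟨1 / c, by positivity, fun y hy w => ?_⟩
  have h1 := (h y hy).trans (VK0_ge w y)
  have hl : 0 < Real.log y := Real.log_pos (by exact_mod_cast (by omega : 1 < y))
  have h2 := one_div_le_one_div_of_le (by positivity) h1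
  refine h2.trans (le_of_eq ?_)
  field_simp

lemma VK0_small (α v0 : ℝ) (hα : 0 < α) (hv : 0 < v0) : ∀ᶠ y : ℕ in atTop, ∀ w : ℕ, VK {0} w y ≤ Real.log y ^ (-α) →
    VK {0} w y ≤ v0 := by
  have hLt : Tendsto (fun Y : ℕ => Real.log (Y : ℝ)) atTop atTop :=
    Real.tendsto_log_atTop.comp tendsto_natCast_atTop_atTop
  have h0 : Tendsto (fun x : ℝ => x ^ (-α)) atTop (𝓝 0) := tendsto_rpow_neg_atTop hα
  filter_upwards [hLt.eventually (h0.eventually (ge_mem_nhds hv))] with y h1 w hw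
  exact hw.trans h1

lemma RT0_iff (w r p m : ℕ) : RT {0} w r p m ↔ ¬ p ∣ w ∧ p ∣ w * m + r := by
  unfold RT
  constructor
  · rintro ⟨h1, g, hg, h2⟩
    obtain ⟨d, hd, rfl⟩ := mem_pt.1 hg
    rw [mem_singleton] at hd
    subst hd
    refine ⟨h1, ?_⟩
    rwa [add_zero, add_comm] at h2
  · rintro ⟨h1, h2⟩
    refine ⟨h1, w * m + 0, mem_pt.2 ⟨0, by simp, rfl⟩, ?_⟩
    rwa [add_zero, add_comm]

lemma RT0_Sf (w r z m : ℕ) : Sf (RT {0} w r) z m ↔ Sur {0} w r z m := by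
  unfold Sf Sur
  constructor
  · intro h p hp d hd
    rw [mem_singleton] at hd
    subst hd
    obtain ⟨h1, h2, h3⟩ := mem_p0.1 hp
    intro h4
    exact h p (mem_pz.2 ⟨h1, h2⟩) ((RT0_iff w r p m).2 ⟨h3, by simpa using h4⟩)
  · intro h p hp hR
    obtain ⟨h1, h2⟩ := (RT0_iff w r p m).1 hR
    obtain ⟨h3, h4⟩ := mem_pz.1 hp
    exact h p (mem_p0.2 ⟨h3, h4, h1⟩) 0 (by simp) (by simpa using h2)

lemma RT0_V (w r z : ℕ) : Vq (RT {0} w r) z = VK {0} w z := by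
  rw [← RT_V {0} w r z]
  rfl

lemma RT0_co (w r p T t : ℕ) (hp : p.Prime) (h1 : 1 ≤ t) (h2 : t ≤ T) (h3 : T < p) : ¬ CoG (RT {0} w r) p t := by
  rintro ⟨m, h4, h5⟩
  rw [RT0_iff] at h4 h5
  have h6 : p ∣ w * t := by
    have h7 : w * (m + t) + r = (w * m + r) + w * t := by ring
    have h8 := h5.2
    rw [h7] at h8
    exact (Nat.dvd_add_right h4.2).1 h8
  rcases hp.dvd_mul.1 h6 with h7 | h7
  · exact h4.1 h7
  · have := Nat.le_of_dvd (by omega) h7
    omega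

open Classical in
lemma law_cond (x κ η' α : ℝ) (hκ : 0 < κ) (hη' : 0 ≤ η') (hα : 0 < α) (T0 R0 : ℕ) : ∀ᶠ y : ℕ in atTop, ∀ Y : ℕ, y ^ R0 ≤ Y →
    ∀ w r : ℕ, VK {0} w y ≤ Real.log y ^ (-α) → ∀ T : ℕ, κ ≤ T * VK {0} w y → T * VK {0} w y ≤ x →
    T0 ≤ T ∧ T ^ R0 ≤ Y ∧ ∀ t ∈ Icc 1 T,
      ((((pz y).filter (fun p : ℕ => T < p ∧ CoG (RT {0} w r) p t)).card : ℕ) : ℝ) ≤ η' * T := by
  obtain ⟨C, hC, hinv⟩ := VK0_inv
  have hLt : Tendsto (fun Y : ℕ => Real.log (Y : ℝ)) atTop atTop :=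
    Real.tendsto_log_atTop.comp tendsto_natCast_atTop_atTop
  filter_upwards [VK0_small α (κ / (T0 + 1)) hα (by positivity), eventually_ge_atTop 2,
    hLt.eventually (ev_pow_exp (|x| * C) 1 one_pos 1)] with y g1 hy2 g2 Y hY w r hwy T hT1 hT2
  rw [pow_one, one_mul] at g2
  have hy0 : (0 : ℝ) < y := by exact_mod_cast (by omega : 0 < y)
  have hV := VK0_pos w y
  have hVs := g1 w hwy
  have hT0 : (0 : ℝ) ≤ T := Nat.cast_nonneg T
  refine ⟨?_, ?_, ?_⟩
  · have h1 : κ ≤ T * (κ / (T0 + 1)) := hT1.trans (mul_le_mul_of_nonneg_left hVs hT0)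
    rw [mul_div_assoc', le_div_iff₀ (by positivity)] at h1
    have h2 : (T0 : ℝ) + 1 ≤ T := by
      by_contra hcon
      rw [not_le] at hcon
      nlinarith
    have h3 : (T0 : ℝ) ≤ T := by linarith
    exact_mod_cast h3
  · have h1 : (T : ℝ) ≤ |x| * C * Real.log y := by
      have h2 : (T : ℝ) ≤ x * (1 / VK {0} w y) := by
        rw [mul_one_div, le_div_iff₀ hV]
        exact hT2
      have h3 : 0 ≤ 1 / VK {0} w y := by positivity
      calc (T : ℝ) ≤ x * (1 / VK {0} w y) := h2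
        _ ≤ |x| * (1 / VK {0} w y) := mul_le_mul_of_nonneg_right (le_abs_self x) h3
        _ ≤ |x| * (C * Real.log y) := mul_le_mul_of_nonneg_left (hinv y hy2 w) (abs_nonneg x)
        _ = _ := by ring
    have h2 : (T : ℝ) ≤ y := by
      refine h1.trans (g2.trans (le_of_eq ?_))
      exact Real.exp_log hy0
    have h3 : T ≤ y := by exact_mod_cast h2
    exact (Nat.pow_le_pow_left h3 R0).trans hY
  · intro t ht
    rw [mem_Icc] at ht
    have h1 : (pz y).filter (fun p : ℕ => T < p ∧ CoG (RT {0} w r) p t) = ∅ := by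
      rw [filter_eq_empty_iff]
      intro p hp h2
      exact RT0_co w r p T t (mem_pz.1 hp).2 ht.1 ht.2 h2.1 h2.2
    rw [h1, card_empty, Nat.cast_zero]
    positivity

end Pool.Agent.H36.GP
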