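import Mathlib
import Pool.Agent.H36.GP.AsyV

/-!
Tails, the Poisson law, the law of the gaps and the moments of the gaps, for arbitrary sets of primes.
-/

set_option autoImplicit false

open Finset Filter Topology

namespace Pool.Agent.H36.GP

open Pool.Agent.H36.RW Pool.Agent.H373R2.T7 Pool.Agent.H36.BF Pool.Agent.H36.BE
open Pool.Agent.H36.KT Pool.Agent.H36.LH
open Pool.Agent.W123.RP Pool.Agent.W123.RU Pool.Agent.TH464.PO

open Classical in
/-- tails -/
theorem tailsY (ε : ℝ) (hε : 0 < ε) (hε1 : ε ≤ 1 / 2) (A : ℕ) (α : ℝ) (hα : 0 < α) :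
    ∃ (K : ℕ) (C : ℝ), 0 < C ∧ ∀ᶠ y : ℕ in atTop, ∀ Y : ℕ, y ^ K ≤ Y → ∀ w r N : ℕ, 1 ≤ w → VK {0} w y ≤ Real.log y ^ (-α) →
    ∀ lam : ℝ, 1 ≤ lam → (((Ioc N (N + Y)).filter (fun n => ∃ T : ℕ, lam ≤ T * VK {0} w y ∧
      BadK ε {0} w y (w * n + r) T)).card : ℝ) ≤ C * (Y / lam ^ A) := by
  set α' : ℝ := min α 1 / 2 with hα'
  have hmin : 0 < min α 1 := lt_min hα one_pos
  have hα'0 : 0 < α' := by positivity
  have hα'1 : α' ≤ 2 / 3 := by
    have : min α 1 ≤ 1 := min_le_right _ _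
    rw [hα']
    linarith
  have hα'2 : 2 * α' ≤ α := by
    have : min α 1 ≤ α := min_le_left _ _
    rw [hα']
    linarith
  obtain ⟨c, C, hc, hc2, hC, h⟩ := allTG 1 le_rfl ε hε (by linarith) α' hα'0 hα'1 A
  refine ⟨⌈1 / c⌉₊, C, hC, ?_⟩
  have hLt : Tendsto (fun y : ℕ => Real.log (y : ℝ)) atTop atTop :=
    Real.tendsto_log_atTop.comp tendsto_natCast_atTop_atTop
  have hLt' : Tendsto (fun y : ℕ => Real.log (y : ℝ) / c) atTop atTop := hLt.atTop_div_const hc
  filter_upwards [hLt'.eventually h, eventually_ge_atTop 2, hLt.eventually_ge_atTop (1 / c),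
    hLt.eventually_ge_atTop 1] with y h1 hy2 hlc hl1 Y hY w r N hw hwy lam hlam
  have hy0 : (0 : ℝ) < y := by exact_mod_cast (by omega : 0 < y)
  have hy1 : (1 : ℝ) ≤ y := by exact_mod_cast (by omega : 1 ≤ y)
  set l := Real.log (y : ℝ) with hl
  have hl0 : 0 < l := by linarith
  have hz : zE c (l / c) = y := by
    unfold zE
    rw [mul_div_cancel₀ _ hc.ne', hl, Real.exp_log hy0, Nat.floor_natCast]
  have hX : Real.exp (l / c) ≤ Y := by
    have h2 : Real.exp (l / c) = (y : ℝ) ^ (1 / c) := by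
      rw [Real.rpow_def_of_pos hy0]
      congr 1
      ring
    rw [h2]
    calc (y : ℝ) ^ (1 / c) ≤ (y : ℝ) ^ ((⌈1 / c⌉₊ : ℕ) : ℝ) := Real.rpow_le_rpow_of_exponent_le hy1 (Nat.le_ceil _)
      _ = ((y ^ ⌈1 / c⌉₊ : ℕ) : ℝ) := by rw [Real.rpow_natCast]; push_cast; rfl
      _ ≤ Y := by exact_mod_cast hY
  have hVα : VK {0} w (zE c (l / c)) ≤ (l / c) ^ (-α') := by
    rw [hz]
    refine hwy.trans ?_
    rw [Real.rpow_neg hl0.le, Real.rpow_neg (by positivity)]
    apply inv_anti₀ (by positivity)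
    calc (l / c) ^ α' ≤ (l * l) ^ α' := by
          apply Real.rpow_le_rpow (by positivity) _ hα'0.le
          rw [div_eq_mul_one_div]
          exact mul_le_mul_of_nonneg_left hlc hl0.le
      _ = l ^ (2 * α') := by
          rw [Real.mul_rpow hl0.le hl0.le, ← Real.rpow_add hl0]
          congr 1
          ring
      _ ≤ l ^ α := Real.rpow_le_rpow_of_exponent_le hl1 hα'2
  have h3 := h1 Y hX lam hlam w {0} (by simp) hw (adm0 w) (fun T p hp hT hpw => sep0 w T p hp hT hpw) hVα r N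
  rw [hz] at h3
  exact h3

open Classical in
/-- the Poisson law -/
theorem lawY (x ε : ℝ) (hε : 0 < ε) (α : ℝ) (hα : 0 < α) :
    ∃ K : ℕ, ∀ᶠ y : ℕ in atTop, ∀ Y : ℕ, y ^ K ≤ Y → ∀ w r N : ℕ, 1 ≤ w → VK {0} w y ≤ Real.log y ^ (-α) →
    ∀ T : ℕ, T * VK {0} w y ≤ x → ∀ J : Finset ℕ,
      |(((Ioc N (N + Y)).filter (fun n => Wc (Sur {0} w r y) n T ∈ J)).card : ℝ) -
        Y * ∑ j ∈ J, Real.exp (-(T * VK {0} w y)) * (T * VK {0} w y) ^ j / j.factorial| ≤ ε * Y := by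
  obtain ⟨K0, y0, T0, R0, η', κ, hη', hκ, hκ2, hlaw⟩ := gen_law 1 le_rfl x ε hε
  refine ⟨K0 + R0, ?_⟩
  filter_upwards [law_cond (max x 1) κ η' α hκ hη'.le hα T0 R0, VK0_small α κ hα hκ, eventually_ge_atTop y0,
    eventually_ge_atTop 1] with y h1 h2 hy0 hy1 Y hY w r N hw hwy T hT J
  have hS : Sf (RT {0} w r) y = Sur {0} w r y := by
    funext m
    exact propext (RT0_Sf w r y m)
  have hV := RT0_V w r y
  have h3 := hlaw (RT {0} w r) N Y y (RT_per 1 {0} (by simp) w r) (fun p hp => RT_adm {0} w r (adm0 w) p hp) hy0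
    ((Nat.pow_le_pow_right hy1 (by omega)).trans hY) (by rw [hV]; exact h2 w hwy)
    (by
      rw [hV]
      exact h1 Y ((Nat.pow_le_pow_right hy1 (by omega)).trans hY) w r hwy) T (by rw [hV]; exact hT) J
  rw [hS, hV] at h3
  exact h3

open Classical in
/-- the law of the gaps -/
theorem gapY (ε : ℝ) (hε : 0 < ε) (α : ℝ) (hα : 0 < α) :
    ∃ K : ℕ, ∀ᶠ y : ℕ in atTop, ∀ Y : ℕ, y ^ K ≤ Y → ∀ w r N : ℕ, 1 ≤ w → VK {0} w y ≤ Real.log y ^ (-α) →
    ∀ T : ℕ, |(Pk (Sur {0} w r y) 1 T N Y : ℝ) - Y * VK {0} w y * Real.exp (-(T * VK {0} w y))| ≤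
      ε * (Y * VK {0} w y) := by
  obtain ⟨K0, y0, T0, R0, η', κ, x1, hη', hκ, hx1, hgap⟩ := gen_gap 1 le_rfl 1 0 ε hε
  obtain ⟨C, hC, hinv⟩ := VK0_inv
  have hLt : Tendsto (fun Y : ℕ => Real.log (Y : ℝ)) atTop atTop :=
    Real.tendsto_log_atTop.comp tendsto_natCast_atTop_atTop
  refine ⟨K0 + R0 + 2, ?_⟩
  filter_upwards [law_cond x1 κ η' α hκ hη'.le hα T0 R0, VK0_small α κ hα hκ, eventually_ge_atTop y0,
    eventually_ge_atTop 2, hLt.eventually (ev_pow_exp (C / κ) 1 one_pos 1),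
    hLt.eventually (ev_pow_exp (x1 * C ^ 2 / κ) 1 one_pos 2)] with y h1 h2 hy0 hy2 g1 g2 Y hY w r N hw hwy T
  have hyr : (0 : ℝ) < y := by exact_mod_cast (by omega : 0 < y)
  rw [one_mul, Real.exp_log hyr] at g1 g2
  rw [pow_one] at g1
  have hS : Sf (RT {0} w r) y = Sur {0} w r y := by
    funext m
    exact propext (RT0_Sf w r y m)
  have hV := RT0_V w r y
  have hVp := VK0_pos w y
  have hVi := hinv y hy2 w
  set V := VK {0} w y with hVd
  have hY2 : y ^ 2 ≤ Y := (Nat.pow_le_pow_right (by omega) (by omega)).trans hY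
  have hY2r : (y : ℝ) ^ 2 ≤ Y := by exact_mod_cast hY2
  have hY1 : (y : ℝ) ≤ Y := by
    have : (1 : ℝ) ≤ y := by exact_mod_cast (by omega : 1 ≤ y)
    nlinarith
  have hYp : (0 : ℝ) < Y := by linarith
  have hsq : (y : ℝ) ≤ √(Y : ℝ) := by
    rw [Real.le_sqrt hyr.le hYp.le]
    exact hY2r
  have hl0 : 0 ≤ Real.log y := Real.log_natCast_nonneg y
  have h3 := hgap (RT {0} w r) N Y y (RT_per 1 {0} (by simp) w r) (fun p hp => RT_adm {0} w r (adm0 w) p hp) hy0
    ((Nat.pow_le_pow_right (by omega) (by omega)).trans hY) (by rw [hV]; exact h2 w hwy)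
    (by
      rw [hV]
      have h4 : 1 ≤ κ * (√(Y : ℝ) * V) := by
        have h5 : C / κ * Real.log y ≤ √(Y : ℝ) := g1.trans hsq
        have h6 : 1 / V ≤ κ * √(Y : ℝ) := by
          calc 1 / V ≤ C * Real.log y := hVi
            _ = κ * (C / κ * Real.log y) := by field_simp
            _ ≤ κ * √(Y : ℝ) := mul_le_mul_of_nonneg_left h5 hκ.le
        rw [div_le_iff₀ hVp] at h6
        linarith
      calc √(Y : ℝ) = √(Y : ℝ) * 1 := (mul_one _).symm
        _ ≤ √(Y : ℝ) * (κ * (√(Y : ℝ) * V)) := mul_le_mul_of_nonneg_left h4 (Real.sqrt_nonneg _)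
        _ = κ * ((√(Y : ℝ) * √(Y : ℝ)) * V) := by ring
        _ = κ * (Y * V) := by rw [Real.mul_self_sqrt hYp.le])
    (by
      rw [hV]
      have h4 : (1 / V) ^ 2 ≤ (C * Real.log y) ^ 2 := pow_le_pow_left₀ (by positivity) hVi 2
      have h5 : x1 * (1 / V) ^ 2 ≤ κ * Y := by
        calc x1 * (1 / V) ^ 2 ≤ x1 * (C * Real.log y) ^ 2 := mul_le_mul_of_nonneg_left h4 hx1.le
          _ = κ * (x1 * C ^ 2 / κ * Real.log y ^ 2) := by field_simp
          _ ≤ κ * Y := mul_le_mul_of_nonneg_left (g2.trans hY1) hκ.le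
      calc x1 / V = x1 * (1 / V) ^ 2 * V := by field_simp
        _ ≤ κ * Y * V := mul_le_mul_of_nonneg_right h5 hVp.le
        _ = κ * (Y * V) := by ring)
    (by
      rw [hV]
      exact h1 Y ((Nat.pow_le_pow_right (by omega) (by omega)).trans hY) w r hwy) 1 T (Or.inl le_rfl)
  rw [hS, hV] at h3
  have e : Ck 1 (T * V) = Real.exp (-(T * V)) := by
    unfold Ck pw
    simp
  rw [e] at h3
  exact h3

open Classical in
/-- gaps and their right end points -/
lemma Pk_gap (P : ℕ → Prop) (T N Y : ℕ) :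
    Pk P 1 T N Y ≤ ((consec ((Ioc N (N + Y)).filter P)).filter (fun x => T < x.2 - x.1)).card + 1 ∧
    ((consec ((Ioc N (N + Y)).filter P)).filter (fun x => T < x.2 - x.1)).card ≤ Pk P 1 T N Y := by
  set S := (Ioc N (N + Y)).filter P with hS
  constructor
  · by_cases hne : S.Nonempty
    · have hsub : (Ioc N (N + Y)).filter (fun b => P b ∧ ((Ico (b - T) b).filter P).card < 1) ⊆
          ((consec S).filter (fun x => T < x.2 - x.1)).image Prod.snd ∪ {S.min' hne} := by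
        intro b hb
        rw [mem_filter] at hb
        obtain ⟨hb1, hb2, hb3⟩ := hb
        have hbS : b ∈ S := by rw [hS, mem_filter]; exact ⟨hb1, hb2⟩
        rw [mem_union, mem_singleton]
        by_cases hmin : b = S.min' hne
        · exact Or.inr hmin
        left
        have hmlt : S.min' hne < b := lt_of_le_of_ne (min'_le S b hbS) (Ne.symm hmin)
        have hne2 : (S.filter (fun s => s < b)).Nonempty := ⟨S.min' hne, mem_filter.2 ⟨min'_mem S hne, hmlt⟩⟩
        have ha := max'_mem _ hne2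
        set a := (S.filter (fun s => s < b)).max' hne2 with had
        rw [mem_filter] at ha
        rw [mem_image]
        refine ⟨(a, b), ?_, rfl⟩
        rw [mem_filter, mem_consec]
        refine ⟨⟨⟨ha.1, hbS⟩, ha.2, ?_⟩, ?_⟩
        · intro y hy hlt
          simp only at hlt
          have := le_max' (S.filter (fun s => s < b)) y (mem_filter.2 ⟨hy, hlt.2⟩)
          omega
        · simp only
          by_contra hcon
          rw [not_lt] at hcon
          have h0 : (Ico (b - T) b).filter P = ∅ := by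
            rw [← card_eq_zero]
            omega
          have haP : P a := by
            have := ha.1
            rw [hS, mem_filter] at this
            exact this.2
          have hmem : a ∈ (Ico (b - T) b).filter P := by
            rw [mem_filter, mem_Ico]
            exact ⟨⟨by omega, ha.2⟩, haP⟩
          rw [h0] at hmem
          exact absurd hmem (notMem_empty a)
      unfold Pk
      refine (card_le_card hsub).trans ((card_union_le _ _).trans ?_)
      rw [card_singleton]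
      exact Nat.add_le_add_right card_image_le 1
    · rw [not_nonempty_iff_eq_empty] at hne
      have h0 : Pk P 1 T N Y = 0 := by
        have h1 := Pk_le_tot P 1 T N Y
        rw [← hS, hne, card_empty] at h1
        omega
      omega
  · unfold Pk
    apply card_le_card_of_injOn Prod.snd
    · intro x hx
      rw [mem_coe, mem_filter] at hx
      obtain ⟨hx1, hx2⟩ := hx
      obtain ⟨⟨a1, a2⟩, a3, a4⟩ := mem_consec.1 hx1
      have b1 := mem_filter.1 a1
      have b2 := mem_filter.1 a2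
      rw [mem_coe, mem_filter]
      refine ⟨b2.1, b2.2, ?_⟩
      rw [Nat.lt_one_iff, card_eq_zero, filter_eq_empty_iff]
      intro s hs hP
      rw [mem_Ico] at hs
      have hN := mem_Ioc.1 b1.1
      have hN2 := mem_Ioc.1 b2.1
      exact a4 s (mem_filter.2 ⟨mem_Ioc.2 (by omega), hP⟩) (by omega)
    · intro x hx x' hx' he
      rw [mem_coe, mem_filter] at hx hx'
      have h1 := mem_consec.1 hx.1
      have h2 := mem_consec.1 hx'.1
      exact consec_unique hx.1 hx'.1 (x.2 - 1) (by omega) (by omega)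

open Classical in
/-- elements near the ends -/
lemma ends (P : ℕ → Prop) (N X G t0 : ℕ) (h : 2 * t0 ≤ G) (hG : G ≤ X) (hE : Em P N X t0 < t0) :
    (∃ s, N < s ∧ s ≤ N + G ∧ P s) ∧ (∃ s, N + X < s + G ∧ s ≤ N + X ∧ P s) := by
  constructor
  · by_contra hcon
    push Not at hcon
    have h1 : (Ioc N (N + t0)).card ≤ Em P N X t0 := by
      unfold Em
      apply card_le_card
      intro n hn
      rw [mem_Ioc] at hn
      rw [mem_filter, mem_Ioc]
      refine ⟨by omega, fun x hx => ?_⟩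
      rw [mem_Icc] at hx
      exact hcon (n + x) (by omega) (by omega)
    rw [Nat.card_Ioc] at h1
    omega
  · by_contra hcon
    push Not at hcon
    have h1 : (Ioc (N + X - 2 * t0) (N + X - t0)).card ≤ Em P N X t0 := by
      unfold Em
      apply card_le_card
      intro n hn
      rw [mem_Ioc] at hn
      rw [mem_filter, mem_Ioc]
      refine ⟨by omega, fun x hx => ?_⟩
      rw [mem_Icc] at hx
      exact hcon (n + x) (by omega) (by omega)
    rw [Nat.card_Ioc] at h1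
    omega

open Classical in
lemma Em_Wc (P : ℕ → Prop) (N X t : ℕ) :
    Em P N X t = ((Ioc N (N + X)).filter (fun n => Wc P n t ∈ ({0} : Finset ℕ))).card := by
  unfold Em Wc
  congr 1
  apply filter_congr
  intro n _
  rw [mem_singleton, card_eq_zero, filter_eq_empty_iff]
  constructor
  · intro h m hm
    rw [mem_Ioc] at hm
    have := h (m - n) (mem_Icc.2 ⟨by omega, by omega⟩)
    rwa [show n + (m - n) = m by omega] at this
  · intro h x hx
    rw [mem_Icc] at hx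
    exact h (mem_Ioc.2 ⟨by omega, by omega⟩)

open Classical in
/-- the tails of the empty windows, and elements near the ends -/
theorem emptyY (A : ℕ) (hA : 1 ≤ A) (α : ℝ) (hα : 0 < α) :
    ∃ (K : ℕ) (C : ℝ), 0 < C ∧ (∀ᶠ y : ℕ in atTop, ∀ Y : ℕ, y ^ K ≤ Y → ∀ w r N : ℕ, 1 ≤ w → VK {0} w y ≤ Real.log y ^ (-α) →
      ∀ t : ℕ, 1 ≤ t * VK {0} w y → (Em (Sur {0} w r y) N Y t : ℝ) ≤ C * (Y / (t * VK {0} w y) ^ A)) ∧
      ∀ η : ℝ, 0 < η → η ≤ 1 → ∀ᶠ y : ℕ in atTop, ∀ Y : ℕ, y ^ K ≤ Y → ∀ w r N : ℕ, 1 ≤ w → VK {0} w y ≤ Real.log y ^ (-α) →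
      (∃ s, N < s ∧ s ≤ N + ⌊η * Y⌋₊ ∧ Sur {0} w r y s) ∧ (∃ s, N + Y < s + ⌊η * Y⌋₊ ∧ s ≤ N + Y ∧ Sur {0} w r y s) := by
  obtain ⟨K, C, hC, htail⟩ := tailsY (1 / 2) (by norm_num) le_rfl A α hα
  obtain ⟨Ci, hCi, hinv⟩ := VK0_inv
  have hLt : Tendsto (fun Y : ℕ => Real.log (Y : ℝ)) atTop atTop :=
    Real.tendsto_log_atTop.comp tendsto_natCast_atTop_atTop
  have h1 : ∀ᶠ y : ℕ in atTop, ∀ Y : ℕ, y ^ (K + 1) ≤ Y → ∀ w r N : ℕ, 1 ≤ w → VK {0} w y ≤ Real.log y ^ (-α) →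
      ∀ t : ℕ, 1 ≤ t * VK {0} w y → (Em (Sur {0} w r y) N Y t : ℝ) ≤ C * (Y / (t * VK {0} w y) ^ A) := by
    filter_upwards [htail, eventually_ge_atTop 1] with y h1 hy1 Y hY w r N hw hwy t ht
    have h4 := h1 Y ((Nat.pow_le_pow_right hy1 (by omega)).trans hY) w r N hw hwy (t * VK {0} w y) ht
    have hV := VK0_pos w y
    refine le_trans ?_ h4
    apply Nat.cast_le.2
    unfold Em
    apply card_le_card
    intro n hn
    rw [mem_filter] at hn ⊢
    refine ⟨hn.1, t, le_rfl, ?_⟩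
    unfold BadK
    rw [RK_zero {0} w r y n t hn.2, Nat.cast_zero, zero_sub, abs_neg, abs_of_nonneg (by linarith)]
    linarith
  refine ⟨K + 1, C, hC, h1, ?_⟩
  intro η hη hη1
  filter_upwards [h1, eventually_ge_atTop 2, hLt.eventually (ev_pow_exp (16 * Ci * (C + 1) / η ^ 2) 1 one_pos 1),
    hLt.eventually (ev_pow_exp (4 * Ci / η) 1 one_pos 1), eventually_ge_atTop ⌈4 / η⌉₊] with y h2 hy2 g1 g2 g3 Y hY w r N hw hwy
  have hyr : (0 : ℝ) < y := by exact_mod_cast (by omega : 0 < y)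
  rw [one_mul, Real.exp_log hyr, pow_one] at g1 g2
  have hYy : y ≤ Y := by
    calc y = y ^ 1 := (pow_one y).symm
      _ ≤ y ^ (K + 1) := Nat.pow_le_pow_right (by omega) (by omega)
      _ ≤ Y := hY
  have hYyr : (y : ℝ) ≤ Y := by exact_mod_cast hYy
  have hYp : (0 : ℝ) < Y := by linarith
  have hV := VK0_pos w y
  have hVi := hinv y hy2 w
  set V := VK {0} w y with hVd
  have hl0 : 0 < Real.log y := Real.log_pos (by exact_mod_cast (by omega : 1 < y))
  have hg3 : 4 / η ≤ Y := (Nat.le_ceil _).trans ((by exact_mod_cast g3 : ((⌈4 / η⌉₊ : ℕ) : ℝ) ≤ y).trans hYyr)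
  have hηY : 4 ≤ η * Y := by
    rw [div_le_iff₀ hη] at hg3
    linarith
  set G := ⌊η * (Y : ℝ)⌋₊ with hG
  have hG1 : (G : ℝ) ≤ η * Y := Nat.floor_le (by positivity)
  have hG2 : η * Y < G + 1 := Nat.lt_floor_add_one _
  have hGY : G ≤ Y := by
    have : (G : ℝ) ≤ Y := by nlinarith
    exact_mod_cast this
  set t0 := G / 2 with ht0
  have ht01 : (G : ℝ) ≤ 2 * t0 + 1 := by exact_mod_cast (by omega : G ≤ 2 * t0 + 1)
  have ht02 : η * Y / 4 ≤ t0 := by linarith
  have ht0p : (0 : ℝ) < t0 := by linarith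
  -- the window t0 is long
  have hVlow : 1 / (Ci * Real.log y) ≤ V := by
    rw [div_le_iff₀ hV] at hVi
    rw [div_le_iff₀ (by positivity)]
    linarith
  have ht0V : 1 ≤ t0 * V := by
    have h3 : 4 * Ci / η * Real.log y ≤ Y := g2.trans hYyr
    calc (1 : ℝ) = (η * (4 * Ci / η * Real.log y) / 4) * (1 / (Ci * Real.log y)) := by field_simp
      _ ≤ (η * Y / 4) * (1 / (Ci * Real.log y)) := by gcongr
      _ ≤ t0 * V := by gcongr
  have h3 := h2 Y hY w r N hw hwy t0 ht0V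
  refine ends (Sur {0} w r y) N Y G t0 (by omega) hGY ?_
  have h4 : C * (Y / (t0 * V) ^ A) < t0 := by
    have h5 : t0 * V ≤ (t0 * V) ^ A := by
      calc t0 * V = (t0 * V) ^ 1 := (pow_one _).symm
        _ ≤ (t0 * V) ^ A := pow_le_pow_right₀ ht0V hA
    have h6 : C * (Y / (t0 * V) ^ A) ≤ C * (Y / (t0 * V)) := by gcongr
    refine lt_of_le_of_lt h6 ?_
    rw [mul_div_assoc', div_lt_iff₀ (by positivity)]
    have h7 : 16 * Ci * (C + 1) / η ^ 2 * Real.log y ≤ Y := g1.trans hYyr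
    have h8 : (C + 1) * Y ≤ (η * Y / 4) * ((η * Y / 4) * (1 / (Ci * Real.log y))) := by
      calc (C + 1) * Y = (16 * Ci * (C + 1) / η ^ 2 * Real.log y) * Y * (η ^ 2 / 16 * (1 / (Ci * Real.log y))) := by
            field_simp
        _ ≤ Y * Y * (η ^ 2 / 16 * (1 / (Ci * Real.log y))) := by gcongr
        _ = _ := by ring
    have h9 : (η * Y / 4) * ((η * Y / 4) * (1 / (Ci * Real.log y))) ≤ t0 * (t0 * V) := by gcongr
    linarith
  exact_mod_cast h3.trans_lt h4

open Classical in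
/-- **All moments of the gaps, asymptotically** -/
theorem momY (m : ℕ) (hm : 1 ≤ m) (ε : ℝ) (hε : 0 < ε) (α : ℝ) (hα : 0 < α) :
    ∃ K : ℕ, ∀ᶠ y : ℕ in atTop, ∀ Y : ℕ, y ^ K ≤ Y → ∀ w r N : ℕ, 1 ≤ w → VK {0} w y ≤ Real.log y ^ (-α) →
    |∑ x ∈ consec ((Ioc N (N + Y)).filter (Sur {0} w r y)), ((x.2 - x.1 : ℕ) : ℝ) ^ (m + 1) -
      (m + 1).factorial * (Y / VK {0} w y ^ m)| ≤ ε * (Y / VK {0} w y ^ m) := by
  obtain ⟨K1, C, hC, htail, hends⟩ := emptyY (m + 2) (by omega) α hα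
  obtain ⟨x1, η, κ, hx1, hη, hκ, hasy⟩ := asy_bounds m hm C ε hC.le hε
  obtain ⟨K2, hlaw⟩ := lawY x1 η hη α hα
  have hη'0 : 0 < min η 1 := lt_min hη one_pos
  refine ⟨K1 + K2, ?_⟩
  filter_upwards [htail, hends (min η 1) hη'0 (min_le_right _ _), hlaw, VK0_small α κ hα hκ, eventually_ge_atTop 1]
    with y h1 h2 h3 h4 hy1 Y hY w r N hw hwy
  have hY1 : y ^ K1 ≤ Y := (Nat.pow_le_pow_right hy1 (by omega)).trans hY
  have hY2 : y ^ K2 ≤ Y := (Nat.pow_le_pow_right hy1 (by omega)).trans hY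
  have hV := VK0_pos w y
  set V := VK {0} w y with hVd
  obtain ⟨hs1, hs2⟩ := h2 Y hY1 w r N hw hwy
  set G := ⌊min η 1 * (Y : ℝ)⌋₊ with hG
  have hG1 : (G : ℝ) ≤ η * Y := by
    have h5 : (G : ℝ) ≤ min η 1 * Y := Nat.floor_le (by positivity)
    exact h5.trans (mul_le_mul_of_nonneg_right (min_le_left _ _) (Nat.cast_nonneg Y))
  obtain ⟨hup, M, hlow⟩ := hasy Y G V (fun t => (Em (Sur {0} w r y) N Y t : ℝ))
    (fun t => (Fm ((Ioc N (N + Y)).filter (Sur {0} w r y)) t : ℝ)) hV (h4 w hwy) hG1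
    (fun t => Nat.cast_nonneg _)
    (fun t ht => by
      have h5 := h3 Y hY2 w r N hw hwy t ht {0}
      rw [← Em_Wc, sum_singleton, pow_zero, mul_one, Nat.factorial_zero, Nat.cast_one, div_one] at h5
      exact h5)
    (fun t ht => h1 Y hY1 w r N hw hwy t ht)
    (fun t => by
      have h5 := Em_le_Fm (Sur {0} w r y) N Y G t hs1 hs2
      exact_mod_cast h5)
    (fun t => Nat.cast_nonneg _)
  have h5 := gap_sum (Sur {0} w r y) N Y m hm
  have h6 := gap_low (Sur {0} w r y) N Y m M hm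
  have h7 := h5.trans hup
  have h8 := hlow.trans h6
  rw [abs_le]
  constructor
  · have e : ((m + 1).factorial - ε) * (Y / V ^ m) = (m + 1).factorial * (Y / V ^ m) - ε * (Y / V ^ m) := by ring
    linarith
  · have e : ((m + 1).factorial + ε) * (Y / V ^ m) = (m + 1).factorial * (Y / V ^ m) + ε * (Y / V ^ m) := by ring
    linarith

open Classical in
/-- the first moment -/
theorem mom0Y (ε : ℝ) (hε : 0 < ε) (α : ℝ) (hα : 0 < α) :
    ∃ K : ℕ, ∀ᶠ y : ℕ in atTop, ∀ Y : ℕ, y ^ K ≤ Y → ∀ w r N : ℕ, 1 ≤ w → VK {0} w y ≤ Real.log y ^ (-α) →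
    |∑ x ∈ consec ((Ioc N (N + Y)).filter (Sur {0} w r y)), ((x.2 - x.1 : ℕ) : ℝ) - Y| ≤ ε * Y := by
  obtain ⟨K1, C, hC, htail, hends⟩ := emptyY 1 le_rfl α hα
  have hη'0 : 0 < min (ε / 2) 1 := lt_min (by positivity) one_pos
  refine ⟨K1, ?_⟩
  filter_upwards [hends (min (ε / 2) 1) hη'0 (min_le_right _ _)] with y h2 Y hY w r N hw hwy
  obtain ⟨hs1, hs2⟩ := h2 Y hY w r N hw hwy
  set G := ⌊min (ε / 2) 1 * (Y : ℝ)⌋₊ with hG
  have hG1 : (G : ℝ) ≤ ε / 2 * Y := by
    have h5 : (G : ℝ) ≤ min (ε / 2) 1 * Y := Nat.floor_le (by positivity)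
    exact h5.trans (mul_le_mul_of_nonneg_right (min_le_left _ _) (Nat.cast_nonneg Y))
  have h1 := Em_le_Fm (Sur {0} w r y) N Y G 0 hs1 hs2
  have hE0 : Em (Sur {0} w r y) N Y 0 = Y := by
    unfold Em
    rw [filter_true_of_mem (fun n _ h hh => by rw [mem_Icc] at hh; omega), Nat.card_Ioc]
    omega
  have hF : Fm ((Ioc N (N + Y)).filter (Sur {0} w r y)) 0 ≤
      ∑ x ∈ consec ((Ioc N (N + Y)).filter (Sur {0} w r y)), (x.2 - x.1) := by
    unfold Fm
    refine card_biUnion_le.trans ?_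
    apply sum_le_sum
    intro x _
    refine (card_filter_le _ _).trans ?_
    rw [Nat.card_Ico]
  have hup : ∑ x ∈ consec ((Ioc N (N + Y)).filter (Sur {0} w r y)), (x.2 - x.1) ≤ Y := by
    have h7 : ∑ x ∈ consec ((Ioc N (N + Y)).filter (Sur {0} w r y)), (x.2 - x.1) =
        ((consec ((Ioc N (N + Y)).filter (Sur {0} w r y))).biUnion (fun x => Ico x.1 x.2)).card := by
      rw [card_biUnion]
      · apply sum_congr rfl
        intro x _
        rw [Nat.card_Ico]
      · intro x hx y hy hxy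
        rw [Function.onFun, disjoint_left]
        intro n hn hn'
        rw [mem_Ico] at hn hn'
        exact hxy (consec_unique hx hy n hn hn')
    rw [h7]
    calc _ ≤ (Ioc N (N + Y)).card := by
          apply card_le_card
          intro n hn
          rw [mem_biUnion] at hn
          obtain ⟨x, hx, hn⟩ := hn
          obtain ⟨⟨a1, a2⟩, _, _⟩ := mem_consec.1 hx
          have hx1 := mem_Ioc.1 (mem_filter.1 a1).1
          have hx2 := mem_Ioc.1 (mem_filter.1 a2).1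
          rw [mem_Ico] at hn
          rw [mem_Ioc]
          omega
      _ = Y := by rw [Nat.card_Ioc]; omega
  have hupr : ∑ x ∈ consec ((Ioc N (N + Y)).filter (Sur {0} w r y)), ((x.2 - x.1 : ℕ) : ℝ) ≤ Y := by
    exact_mod_cast hup
  have hlowr : (Y : ℝ) ≤ ∑ x ∈ consec ((Ioc N (N + Y)).filter (Sur {0} w r y)), ((x.2 - x.1 : ℕ) : ℝ) + 2 * G := by
    rw [hE0] at h1
    exact_mod_cast h1.trans (Nat.add_le_add_right hF _)
  have hY0 : (0 : ℝ) ≤ Y := Nat.cast_nonneg Y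
  rw [abs_le]
  constructor
  · nlinarith
  · nlinarith

open Classical in
/-- the law of the gaps in terms of the pairs of consecutive elements -/
theorem gapPY (ε : ℝ) (hε : 0 < ε) (α : ℝ) (hα : 0 < α) :
    ∃ K : ℕ, ∀ᶠ y : ℕ in atTop, ∀ Y : ℕ, y ^ K ≤ Y → ∀ w r N : ℕ, 1 ≤ w → VK {0} w y ≤ Real.log y ^ (-α) →
    ∀ T : ℕ, |(((consec ((Ioc N (N + Y)).filter (Sur {0} w r y))).filter (fun x => T < x.2 - x.1)).card : ℝ) -
      Y * VK {0} w y * Real.exp (-(T * VK {0} w y))| ≤ ε * (Y * VK {0} w y) := by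
  obtain ⟨K, hgap⟩ := gapY (ε / 2) (by positivity) α hα
  obtain ⟨Ci, hCi, hinv⟩ := VK0_inv
  have hLt : Tendsto (fun Y : ℕ => Real.log (Y : ℝ)) atTop atTop :=
    Real.tendsto_log_atTop.comp tendsto_natCast_atTop_atTop
  refine ⟨K + 1, ?_⟩
  filter_upwards [hgap, eventually_ge_atTop 2, hLt.eventually (ev_pow_exp (2 * Ci / ε) 1 one_pos 1)]
    with y h1 hy2 g1 Y hY w r N hw hwy T
  have hyr : (0 : ℝ) < y := by exact_mod_cast (by omega : 0 < y)
  rw [one_mul, Real.exp_log hyr, pow_one] at g1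
  have hYy : y ≤ Y := by
    calc y = y ^ 1 := (pow_one y).symm
      _ ≤ y ^ (K + 1) := Nat.pow_le_pow_right (by omega) (by omega)
      _ ≤ Y := hY
  have hYyr : (y : ℝ) ≤ Y := by exact_mod_cast hYy
  have h2 := h1 Y ((Nat.pow_le_pow_right (by omega) (by omega)).trans hY) w r N hw hwy T
  obtain ⟨h3, h4⟩ := Pk_gap (Sur {0} w r y) T N Y
  have hV := VK0_pos w y
  have hVi := hinv y hy2 w
  set V := VK {0} w y with hVd
  have h5 : 1 ≤ ε / 2 * (Y * V) := by
    have h6 : 1 / V ≤ ε / 2 * Y := by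
      calc 1 / V ≤ Ci * Real.log y := hVi
        _ = ε / 2 * (2 * Ci / ε * Real.log y) := by field_simp
        _ ≤ ε / 2 * Y := mul_le_mul_of_nonneg_left (g1.trans hYyr) (by positivity)
    rw [div_le_iff₀ hV] at h6
    linarith
  set c1 := ((consec ((Ioc N (N + Y)).filter (Sur {0} w r y))).filter (fun x => T < x.2 - x.1)).card with hc1
  have h3' : (Pk (Sur {0} w r y) 1 T N Y : ℝ) ≤ c1 + 1 := by exact_mod_cast h3
  have h4' : (c1 : ℝ) ≤ Pk (Sur {0} w r y) 1 T N Y := by exact_mod_cast h4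
  obtain ⟨h6, h7⟩ := abs_le.1 h2
  rw [abs_le]
  constructor <;> linarith

end Pool.Agent.H36.GP
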