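import Mathlib
import Pool.Agent.H36.GP.EvT
import Pool.Agent.H36.GP.AsyM

/-!
Empty windows, for arbitrary sets of primes: very short windows and long windows.
-/

set_option autoImplicit false

open Finset Filter

namespace Pool.Agent.H36.GP

open Pool.Agent.H36.RW Pool.Agent.H36.BF Pool.Agent.H373R2.T7 Pool.Agent.H36.BE
open Pool.Agent.H36.KT Pool.Agent.H36.LH
open Pool.Agent.W123.RP

lemma Em_le (P : ℕ → Prop) (N X t : ℕ) : Em P N X t ≤ X := by
  classical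
  unfold Em
  refine (card_filter_le _ _).trans ?_
  rw [Nat.card_Ioc]
  omega

lemma Em_mono (P Q : ℕ → Prop) (h : ∀ m, Q m → P m) (N X t : ℕ) : Em P N X t ≤ Em Q N X t := by
  classical
  unfold Em
  apply card_le_card
  intro n hn
  rw [mem_filter] at hn ⊢
  exact ⟨hn.1, fun x hx hq => hn.2 x hx (h _ hq)⟩

lemma Em_anti (P : ℕ → Prop) (N X t t' : ℕ) (h : t ≤ t') : Em P N X t' ≤ Em P N X t := by
  classical
  unfold Em
  apply card_le_card
  intro n hn
  rw [mem_filter] at hn ⊢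
  refine ⟨hn.1, fun x hx => hn.2 x ?_⟩
  rw [mem_Icc] at hx ⊢
  omega

/-- the level -/
lemma zE_log (c : ℝ) (hc : 0 < c) (y : ℕ) (hy : 1 ≤ y) : zE c (Real.log y / c) = y := by
  unfold zE
  rw [mul_div_cancel₀ _ hc.ne', Real.exp_log (by exact_mod_cast hy), Nat.floor_natCast]

lemma exp_log_le (c : ℝ) (y Y K : ℕ) (hy : 1 ≤ y) (hK : 1 / c ≤ K) (hY : y ^ K ≤ Y) :
    Real.exp (Real.log y / c) ≤ Y := by
  have hy0 : (0 : ℝ) < y := by exact_mod_cast hy
  have hy1 : (1 : ℝ) ≤ y := by exact_mod_cast hy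
  have h2 : Real.exp (Real.log y / c) = (y : ℝ) ^ (1 / c) := by
    rw [Real.rpow_def_of_pos hy0]
    congr 1
    ring
  rw [h2]
  calc (y : ℝ) ^ (1 / c) ≤ (y : ℝ) ^ (K : ℝ) := Real.rpow_le_rpow_of_exponent_le hy1 hK
    _ = ((y ^ K : ℕ) : ℝ) := by rw [Real.rpow_natCast]; push_cast; rfl
    _ ≤ Y := by exact_mod_cast hY

/-- very short windows -/
theorem tinyY : ∃ δ0 : ℝ, 0 < δ0 ∧ δ0 ≤ 1 / 12 ∧ ∀ A : ℕ, ∃ (K : ℕ) (C : ℝ), 0 < C ∧ ∀ᶠ y : ℕ in atTop,
    ∀ Y : ℕ, y ^ K ≤ Y → ∀ w r N : ℕ, 1 ≤ w → ∀ T : ℕ, (T : ℝ) ≤ Real.log y → 1 ≤ T * VK {0} w y →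
    T * VK {0} w y ≤ (T : ℝ) ^ δ0 → (Em (Sur {0} w r y) N Y T : ℝ) ≤ C * (Y / (T * VK {0} w y) ^ A) := by
  classical
  obtain ⟨δ0, hδ0, hδ1, h⟩ := evT 1 le_rfl (1 / 2) (by norm_num) (by norm_num)
  refine ⟨δ0, hδ0, hδ1, fun A => ?_⟩
  obtain ⟨c, lam0, T0, hc, hc2, hlam0, hev⟩ := h A
  set C : ℝ := (T0 : ℝ) ^ A + (4 * lam0) ^ A + 4 ^ A with hC
  have hl0 : 0 < lam0 := by linarith
  have hC0 : 0 < C := by positivity
  refine ⟨⌈1 / c⌉₊, C, hC0, ?_⟩
  have hLt : Tendsto (fun y : ℕ => Real.log (y : ℝ)) atTop atTop :=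
    Real.tendsto_log_atTop.comp tendsto_natCast_atTop_atTop
  have hLt' : Tendsto (fun y : ℕ => Real.log (y : ℝ) / c) atTop atTop := hLt.atTop_div_const hc
  filter_upwards [hLt'.eventually hev, eventually_ge_atTop 2] with y h1 hy2 Y hY w r N hw T hTl hT1 hT2
  have hz := zE_log c hc y (by omega)
  have hX := exp_log_le c y Y _ (by omega) (Nat.le_ceil _) hY
  rw [hz] at h1
  have hV := VK0_pos w y
  have hV1 : VK {0} w y ≤ 1 := VK_le_one {0} w y
  set V := VK {0} w y with hVd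
  have hYp : (0 : ℝ) < Y := (Real.exp_pos _).trans_le hX
  have hE : (Em (Sur {0} w r y) N Y T : ℝ) ≤ Y := by exact_mod_cast Em_le _ N Y T
  have htriv : ∀ M : ℝ, 0 ≤ M → T * V ≤ M → M ^ A ≤ C → (Em (Sur {0} w r y) N Y T : ℝ) ≤ C * (Y / (T * V) ^ A) := by
    intro M hM0 hM hMC
    refine hE.trans ?_
    rw [mul_div_assoc', le_div_iff₀ (by positivity), mul_comm]
    have h3 : (T * V) ^ A ≤ M ^ A := pow_le_pow_left₀ (by linarith) hM A
    exact mul_le_mul_of_nonneg_right (h3.trans hMC) hYp.le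
  by_cases hTT : T < T0
  · refine htriv T0 (Nat.cast_nonneg _) ?_ ?_
    · have h3 : (T : ℝ) ≤ T0 := by exact_mod_cast hTT.le
      have h4 : T * V ≤ T * 1 := mul_le_mul_of_nonneg_left hV1 (Nat.cast_nonneg T)
      linarith
    · rw [hC]
      have : 0 < (4 * lam0) ^ A + (4 : ℝ) ^ A := by positivity
      linarith
  by_cases hTV : T * V < 4 * lam0
  · refine htriv (4 * lam0) (by linarith) hTV.le ?_
    rw [hC]
    have : 0 ≤ (T0 : ℝ) ^ A := by positivity
    have : 0 < (4 : ℝ) ^ A := by positivity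
    linarith
  rw [not_lt] at hTT hTV
  have hTL : (T : ℝ) ≤ Real.log y / c := by
    rw [le_div_iff₀ hc]
    have h3 : (T : ℝ) * c ≤ T * 1 := mul_le_mul_of_nonneg_left (by linarith) (Nat.cast_nonneg T)
    linarith
  have h3 := h1 Y hX T hTT hTL (T * V / 4) (by linarith) (by linarith) w {0} (by simp) hw (adm0 w)
    (fun T p hp hT hpw => sep0 w T p hp hT hpw) (by linarith) (by linarith) (w * N + r)
  have h4 : Em (Sur {0} w r y) N Y T ≤ ((Icc 1 Y).filter (fun l => 1 / 2 * (T * V) <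
      |(RK {0} w y (w * l + (w * N + r)) T : ℝ) - T * V|)).card := by
    have hsub : (Ioc N (N + Y)).filter (fun n => ∀ h ∈ Icc 1 T, ¬ Sur {0} w r y (n + h)) ⊆
        ((Icc 1 Y).filter (fun l => 1 / 2 * (T * V) <
          |(RK {0} w y (w * l + (w * N + r)) T : ℝ) - T * V|)).image (fun l => N + l) := by
      intro n hn
      rw [mem_filter, mem_Ioc] at hn
      rw [mem_image]
      refine ⟨n - N, ?_, by omega⟩
      rw [mem_filter, mem_Icc]
      refine ⟨by omega, ?_⟩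
      have e : w * (n - N) + (w * N + r) = w * n + r := by
        rw [← add_assoc, ← mul_add]
        congr 2
        omega
      rw [e, RK_zero {0} w r y n T hn.2, Nat.cast_zero, zero_sub, abs_neg, abs_of_nonneg (by linarith)]
      linarith
    unfold Em
    refine le_trans (le_of_eq ?_) ((card_le_card hsub).trans card_image_le)
    congr!
  have h5 : (Em (Sur {0} w r y) N Y T : ℝ) ≤ Y / (T * V / 4) ^ A := by
    refine le_trans ?_ h3
    exact_mod_cast h4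
  refine h5.trans ?_
  have h6 : (Y : ℝ) / (T * V / 4) ^ A = 4 ^ A * (Y / (T * V) ^ A) := by
    rw [div_pow]
    field_simp
  rw [h6]
  apply mul_le_mul_of_nonneg_right _ (by positivity)
  rw [hC]
  have : 0 ≤ (T0 : ℝ) ^ A + (4 * lam0) ^ A := by positivity
  linarith

/-- long windows -/
theorem longY (A : ℕ) : ∃ (B K : ℕ), ∀ᶠ y : ℕ in atTop, ∀ Y : ℕ, y ^ K ≤ Y → ∀ w r N : ℕ, ∀ T : ℕ,
    Real.log y ^ B ≤ T → 1 ≤ T * VK {0} w y → (Em (Sur {0} w r y) N Y T : ℝ) ≤ Y / (T * VK {0} w y) ^ A := by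
  classical
  obtain ⟨B, hB, c, hc, hc2, hlong⟩ := lh_all 1 le_rfl (1 / 2) (by norm_num) A
  have hlong := hlong c hc le_rfl
  refine ⟨B + 1, ⌈1 / c⌉₊, ?_⟩
  have hLt : Tendsto (fun y : ℕ => Real.log (y : ℝ)) atTop atTop :=
    Real.tendsto_log_atTop.comp tendsto_natCast_atTop_atTop
  have hLt' : Tendsto (fun y : ℕ => Real.log (y : ℝ) / c) atTop atTop := hLt.atTop_div_const hc
  filter_upwards [hLt'.eventually hlong, eventually_ge_atTop 2, hLt.eventually_ge_atTop ((1 / c) ^ B),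
    hLt.eventually_ge_atTop 1] with y h1 hy2 g1 g2 Y hY w r N T hT hTV
  have hz := zE_log c hc y (by omega)
  have hX := exp_log_le c y Y _ (by omega) (Nat.le_ceil _) hY
  rw [hz] at h1
  have hl0 : 0 < Real.log y := by linarith
  have hT' : (Real.log y / c) ^ B ≤ T := by
    refine le_trans ?_ hT
    rw [pow_succ, div_eq_mul_one_div, mul_pow]
    exact mul_le_mul_of_nonneg_left g1 (by positivity)
  have h2 := h1 Y hX (RT {0} w r) (RT_per 1 {0} (by simp) w r) (RT_adm {0} w r (adm0 w)) N T hT'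
  rw [RT_V] at h2
  have hV := VK0_pos w y
  have hV1 : VK {0} w y ≤ 1 := VK_le_one {0} w y
  set V := VK {0} w y with hVd
  have hYp : (0 : ℝ) < Y := (Real.exp_pos _).trans_le hX
  have h4 : Em (Sur {0} w r y) N Y T ≤ ((Ioc N (N + Y)).filter (fun n => ∃ T' : ℕ, (T : ℝ) ≤ T' ∧
      1 / 2 * (T' * V) < |(SC (RT {0} w r) (pz y) n T' : ℝ) - T' * V|)).card := by
    unfold Em
    apply card_le_card
    intro n hn
    rw [mem_filter] at hn ⊢
    refine ⟨hn.1, T, le_rfl, ?_⟩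
    rw [RT_SC, RK_zero {0} w r y n T hn.2, Nat.cast_zero, zero_sub, abs_neg, abs_of_nonneg (by linarith)]
    linarith
  have h5 : (Em (Sur {0} w r y) N Y T : ℝ) ≤ Y / (T : ℝ) ^ A := by
    refine le_trans ?_ h2
    exact_mod_cast h4
  refine h5.trans ?_
  apply div_le_div_of_nonneg_left hYp.le (by positivity)
  apply pow_le_pow_left₀ (by linarith)
  exact mul_le_of_le_one_right (Nat.cast_nonneg T) hV1

end Pool.Agent.H36.GP
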