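import Mathlib
import Pool.Agent.H36.GP.Tiny

/-!
Arbitrary sets of primes and classes: empty windows.
-/

set_option autoImplicit false

open Finset Filter

namespace Pool.Agent.H36.GP

open Pool.Agent.H36.RW Pool.Agent.H36.BF Pool.Agent.H373R2.T7 Pool.Agent.H36.BE
open Pool.Agent.H36.KT Pool.Agent.H36.LH
open Pool.Agent.W123.RP

/-- survivors -/
def FreeS (P : Finset ℕ) (a : ℕ → ℕ) (m : ℕ) : Prop := ∀ p ∈ P, ¬ m ≡ a p [MOD p]

/-- the product of the primes `≤ y` which are not in `P` -/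
def restS (P : Finset ℕ) (y : ℕ) : ℕ := ∏ p ∈ (pz y).filter (fun p => p ∉ P), p

lemma restS_pos (P : Finset ℕ) (y : ℕ) : 1 ≤ restS P y := by
  unfold restS
  exact Nat.succ_le_of_lt (Finset.prod_pos fun p hp => (mem_pz.1 (mem_filter.1 hp).1).2.pos)

lemma dvd_restS (P : Finset ℕ) (y p : ℕ) (hp : p.Prime) (hpy : p ≤ y) : p ∣ restS P y ↔ p ∉ P := by
  unfold restS
  rw [Prime.dvd_finsetProd_iff hp.prime]
  constructor
  · rintro ⟨p', hp', h⟩
    rw [mem_filter] at hp'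
    have := (Nat.prime_dvd_prime_iff_eq hp (mem_pz.1 hp'.1).2).1 h
    rw [this]
    exact hp'.2
  · intro h
    exact ⟨p, mem_filter.2 ⟨mem_pz.2 ⟨hpy, hp⟩, h⟩, dvd_rfl⟩

lemma p0_restS (P : Finset ℕ) (y : ℕ) (hP : P ⊆ pz y) : p0 (restS P y) y = P := by
  ext p
  rw [mem_p0]
  constructor
  · rintro ⟨h1, h2, h3⟩
    by_contra h4
    exact h3 ((dvd_restS P y p h2 h1).2 h4)
  · intro h
    obtain ⟨h2, h1⟩ := mem_pz.1 (hP h)
    exact ⟨h2, h1, fun h3 => (dvd_restS P y p h1 h2).1 h3 h⟩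

lemma VK_restS (P : Finset ℕ) (y : ℕ) (hP : P ⊆ pz y) : VK {0} (restS P y) y = Wp P := by
  rw [VK0, p0_restS P y hP]

/-- residue classes and a progression -/
lemma FreeS_Sur (P : Finset ℕ) (y : ℕ) (hP : P ⊆ pz y) (a : ℕ → ℕ) :
    ∃ r : ℕ, FreeS P a = Sur {0} (restS P y) r y := by
  classical
  set w := restS P y with hw
  have hpp : ∀ p ∈ P, p ≠ 0 := fun p hp => (mem_pz.1 (hP hp)).2.ne_zero
  have hco : Set.Pairwise (↑P : Set ℕ) (Function.onFun Nat.Coprime (fun p : ℕ => p)) := by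
    intro p hp p' hp' hne
    exact (Nat.coprime_primes (mem_pz.1 (hP hp)).2 (mem_pz.1 (hP hp')).2).2 hne
  obtain ⟨r, hr⟩ := Nat.chineseRemainderOfFinset (fun p => (p - (w * a p) % p)) (fun p => p) P hpp hco
  refine ⟨r, ?_⟩
  have key : ∀ p ∈ P, ∀ m : ℕ, m ≡ a p [MOD p] ↔ p ∣ w * m + r := by
    intro p hp m
    obtain ⟨hp2, hp1⟩ := mem_pz.1 (hP hp)
    have hp0 : 0 < p := hp1.pos
    have hcop : Nat.gcd p w = 1 := (Nat.Prime.coprime_iff_not_dvd hp1).2 fun h => (dvd_restS P y p hp1 hp2).1 h hp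
    have h1 : w * a p + r ≡ 0 [MOD p] := by
      have h2 : r + w * a p ≡ (p - (w * a p) % p) + (w * a p) % p [MOD p] := Nat.ModEq.add (hr p hp) (Nat.mod_modEq _ _).symm
      have h3 : (p - (w * a p) % p) + (w * a p) % p = p := Nat.sub_add_cancel (Nat.mod_lt _ hp0).le
      rw [h3] at h2
      rw [add_comm]
      exact h2.trans (by simp [Nat.ModEq])
    rw [← Nat.modEq_zero_iff_dvd]
    constructor
    · intro h
      exact (Nat.ModEq.add_right _ (Nat.ModEq.mul_left _ h)).trans h1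
    · intro h
      have h2 : w * m + r ≡ w * a p + r [MOD p] := h.trans h1.symm
      have h3 : w * m ≡ w * a p [MOD p] := Nat.ModEq.add_right_cancel' _ h2
      exact Nat.ModEq.cancel_left_of_coprime hcop h3
  funext m
  apply propext
  unfold FreeS Sur
  rw [p0_restS P y hP]
  constructor
  · intro h p hp d hd hdvd
    rw [mem_singleton] at hd
    subst hd
    exact h p hp ((key p hp m).2 (by simpa using hdvd))
  · intro h p hp hmod
    exact h p hp 0 (mem_singleton_self 0) (by simpa using (key p hp m).1 hmod)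

/-- sets of prescribed density -/
lemma superset (P U : Finset ℕ) (hPU : P ⊆ U) (hU : ∀ p ∈ U, p.Prime) (τ : ℝ) (h1 : Wp U ≤ τ) (h2 : τ ≤ Wp P) :
    ∃ Q, P ⊆ Q ∧ Q ⊆ U ∧ Wp Q ≤ τ ∧ τ / 2 ≤ Wp Q := by
  classical
  have hpos : ∀ S ⊆ U, 0 < Wp S := by
    intro S hS
    unfold Wp
    apply prod_pos
    intro p hp
    have h3 : (2 : ℝ) ≤ p := by exact_mod_cast (hU p (hS hp)).two_le
    have h4 : 1 / (p : ℝ) < 1 := by
      rw [div_lt_one (by linarith)]
      linarith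
    linarith
  have hτ : 0 < τ := (hpos U (subset_refl U)).trans_le h1
  set F := U.powerset.filter (fun Q => P ⊆ Q ∧ Wp Q ≤ τ) with hF
  have hne : F.Nonempty := ⟨U, by
    rw [hF, mem_filter, mem_powerset]
    exact ⟨subset_refl U, hPU, h1⟩⟩
  obtain ⟨Q, hQ, hmin⟩ := exists_min_image F card hne
  rw [hF, mem_filter, mem_powerset] at hQ
  obtain ⟨hQU, hPQ, hQτ⟩ := hQ
  refine ⟨Q, hPQ, hQU, hQτ, ?_⟩
  by_contra hcon
  rw [not_le] at hcon
  have hne2 : ∃ p ∈ Q, p ∉ P := by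
    by_contra hno
    push Not at hno
    have h3 : Q = P := subset_antisymm (fun p hp => hno p hp) hPQ
    rw [h3] at hcon
    linarith
  obtain ⟨p, hpQ, hpP⟩ := hne2
  have hp := hU p (hQU hpQ)
  have h3 : Wp Q = (1 - 1 / (p : ℝ)) * Wp (Q.erase p) := by
    unfold Wp
    rw [mul_prod_erase Q (fun p : ℕ => (1 - 1 / (p : ℝ))) hpQ]
  have h4 : 0 < Wp (Q.erase p) := hpos _ ((erase_subset _ _).trans hQU)
  have h5 : (1 / 2 : ℝ) ≤ 1 - 1 / (p : ℝ) := by
    have h6 : (2 : ℝ) ≤ p := by exact_mod_cast hp.two_le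
    have h7 : 1 / (p : ℝ) ≤ 1 / 2 := one_div_le_one_div_of_le (by norm_num) h6
    linarith
  have h6 : Wp (Q.erase p) ≤ τ := by
    have h7 : 1 / 2 * Wp (Q.erase p) ≤ Wp Q := by
      rw [h3]
      exact mul_le_mul_of_nonneg_right h5 h4.le
    linarith
  have h7 : Q.erase p ∈ F := by
    rw [hF, mem_filter, mem_powerset]
    refine ⟨(erase_subset _ _).trans hQU, ?_, h6⟩
    intro x hx
    rw [mem_erase]
    exact ⟨fun h => hpP (h ▸ hx), hPQ hx⟩
  have h8 := hmin _ h7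
  have h9 := card_erase_lt_of_mem hpQ
  omega

lemma Wp_pos' (P : Finset ℕ) (y : ℕ) (hP : P ⊆ pz y) : 0 < Wp P := by
  rw [← VK_restS P y hP]
  exact VK0_pos _ _

lemma Wp_le1 (P : Finset ℕ) (y : ℕ) (hP : P ⊆ pz y) : Wp P ≤ 1 := by
  rw [← VK_restS P y hP]
  exact VK_le_one {0} _ y

/-- windows of length up to `log y` -/
theorem shortAll (A : ℕ) : ∃ (K : ℕ) (C : ℝ), 0 < C ∧ ∀ᶠ y : ℕ in atTop, ∀ Y : ℕ, y ^ K ≤ Y →
    ∀ P : Finset ℕ, P ⊆ pz y → ∀ (a : ℕ → ℕ) (N T : ℕ), (T : ℝ) ≤ Real.log y → 1 ≤ T * Wp P →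
    (Em (FreeS P a) N Y T : ℝ) ≤ C * (Y / (T * Wp P) ^ A) := by
  obtain ⟨δ0, hδ0, hδ1, htiny⟩ := tinyY
  obtain ⟨A1, hA1⟩ := exists_nat_ge ((A : ℝ) / δ0)
  have hA1' : (A : ℝ) ≤ δ0 * A1 := by
    rw [div_le_iff₀ hδ0] at hA1
    linarith
  obtain ⟨K1, C1, hC1, h1⟩ := htiny A
  obtain ⟨K2, C2, hC2, h2⟩ := htiny A1
  obtain ⟨Cu, hCu, hVu⟩ := Vz_upper
  refine ⟨K1 + K2, C1 + C2 * 2 ^ A1 + 2 ^ A1, by positivity, ?_⟩
  have hLt : Tendsto (fun y : ℕ => Real.log (y : ℝ)) atTop atTop :=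
    Real.tendsto_log_atTop.comp tendsto_natCast_atTop_atTop
  have hpw : Tendsto (fun x : ℝ => x ^ δ0) atTop atTop := tendsto_rpow_atTop hδ0
  filter_upwards [h1, h2, eventually_ge_atTop 3, hLt.eventually (hpw.eventually_ge_atTop Cu),
    hLt.eventually_ge_atTop 1] with y g1 g2 hy3 g3 g4 Y hY P hP a N T hTl hT1
  have hl0 : 0 < Real.log y := by linarith
  have hW := Wp_pos' P y hP
  have hW1 := Wp_le1 P y hP
  have hT0 : (0 : ℝ) < T := by
    rcases (Nat.cast_nonneg T : (0 : ℝ) ≤ T).lt_or_eq with h | h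
    · exact h
    · rw [← h] at hT1
      linarith
  have hT1' : (1 : ℝ) ≤ T := by
    have : (T : ℝ) * Wp P ≤ T * 1 := mul_le_mul_of_nonneg_left hW1 hT0.le
    linarith
  have hY0 : (0 : ℝ) ≤ Y := Nat.cast_nonneg Y
  by_cases hs : T * Wp P ≤ (T : ℝ) ^ δ0
  · obtain ⟨r, hr⟩ := FreeS_Sur P y hP a
    rw [hr]
    have h3 := g1 Y ((Nat.pow_le_pow_right (by omega) (by omega)).trans hY) (restS P y) r N (restS_pos P y) T hTl
      (by rw [VK_restS P y hP]; exact hT1) (by rw [VK_restS P y hP]; exact hs)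
    rw [VK_restS P y hP] at h3
    refine h3.trans ?_
    apply mul_le_mul_of_nonneg_right _ (by positivity)
    have : 0 < C2 * 2 ^ A1 := by positivity
    have : (0 : ℝ) < 2 ^ A1 := by positivity
    linarith
  · rw [not_le] at hs
    set τ : ℝ := (T : ℝ) ^ (δ0 - 1) with hτ
    have hτT : T * τ = (T : ℝ) ^ δ0 := by
      rw [hτ, Real.rpow_sub_one hT0.ne']
      field_simp
    have hτ0 : 0 < τ := by rw [hτ]; positivity
    have hup : Wp (pz y) ≤ τ := by
      have h3 : Wp (pz y) ≤ Cu / Real.log y := hVu y (by omega)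
      refine h3.trans ?_
      rw [div_le_iff₀ hl0]
      calc Cu ≤ Real.log y ^ δ0 := g3
        _ = Real.log y ^ (δ0 - 1) * Real.log y := by
            rw [Real.rpow_sub_one hl0.ne']
            field_simp
        _ ≤ τ * Real.log y := by
            apply mul_le_mul_of_nonneg_right _ hl0.le
            exact Real.rpow_le_rpow_of_nonpos hT0 hTl (by linarith)
    have hlow : τ ≤ Wp P := by
      have h3 : T * τ ≤ T * Wp P := by rw [hτT]; exact hs.le
      exact le_of_mul_le_mul_left h3 hT0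
    obtain ⟨Q, hPQ, hQ, hQ1, hQ2⟩ := superset P (pz y) hP (fun p hp => (mem_pz.1 hp).2) τ hup hlow
    have hWQ := Wp_pos' Q y hQ
    have hTQ1 : T * Wp Q ≤ (T : ℝ) ^ δ0 := by
      rw [← hτT]
      exact mul_le_mul_of_nonneg_left hQ1 hT0.le
    have hTQ2 : (T : ℝ) ^ δ0 / 2 ≤ T * Wp Q := by
      rw [← hτT]
      have := mul_le_mul_of_nonneg_left hQ2 hT0.le
      linarith
    have hpow : (T * Wp P) ^ A ≤ ((T : ℝ) ^ δ0) ^ A1 := by
      calc (T * Wp P) ^ A ≤ (T : ℝ) ^ A := by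
            apply pow_le_pow_left₀ (by positivity)
            exact mul_le_of_le_one_right hT0.le hW1
        _ = (T : ℝ) ^ (A : ℝ) := (Real.rpow_natCast _ _).symm
        _ ≤ (T : ℝ) ^ (δ0 * A1) := Real.rpow_le_rpow_of_exponent_le hT1' hA1'
        _ = ((T : ℝ) ^ δ0) ^ A1 := by rw [Real.rpow_mul hT0.le, Real.rpow_natCast]
    have hfin : (Y : ℝ) / ((T : ℝ) ^ δ0 / 2) ^ A1 ≤ 2 ^ A1 * (Y / (T * Wp P) ^ A) := by
      have h3 : (Y : ℝ) / ((T : ℝ) ^ δ0 / 2) ^ A1 = 2 ^ A1 * (Y / ((T : ℝ) ^ δ0) ^ A1) := by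
        rw [div_pow]
        field_simp
      rw [h3]
      apply mul_le_mul_of_nonneg_left _ (by positivity)
      exact div_le_div_of_nonneg_left hY0 (by positivity) hpow
    by_cases hQ3 : 1 ≤ T * Wp Q
    · obtain ⟨r, hr⟩ := FreeS_Sur Q y hQ a
      have h3 := g2 Y ((Nat.pow_le_pow_right (by omega) (by omega)).trans hY) (restS Q y) r N (restS_pos Q y) T hTl
        (by rw [VK_restS Q y hQ]; exact hQ3) (by rw [VK_restS Q y hQ]; exact hTQ1)
      rw [VK_restS Q y hQ, ← hr] at h3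
      have h4 : (Em (FreeS P a) N Y T : ℝ) ≤ Em (FreeS Q a) N Y T := by
        have : Em (FreeS P a) N Y T ≤ Em (FreeS Q a) N Y T :=
          Em_mono _ _ (fun m hm p hp => hm p (hPQ hp)) N Y T
        exact_mod_cast this
      calc (Em (FreeS P a) N Y T : ℝ) ≤ C2 * (Y / (T * Wp Q) ^ A1) := h4.trans h3
        _ ≤ C2 * (Y / ((T : ℝ) ^ δ0 / 2) ^ A1) := by
            apply mul_le_mul_of_nonneg_left _ hC2.le
            apply div_le_div_of_nonneg_left hY0 (by positivity)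
            exact pow_le_pow_left₀ (by positivity) hTQ2 A1
        _ ≤ C2 * (2 ^ A1 * (Y / (T * Wp P) ^ A)) := mul_le_mul_of_nonneg_left hfin hC2.le
        _ = (C2 * 2 ^ A1) * (Y / (T * Wp P) ^ A) := by ring
        _ ≤ _ := by
            apply mul_le_mul_of_nonneg_right _ (by positivity)
            have : (0 : ℝ) < 2 ^ A1 := by positivity
            linarith
    · -- then `T` is bounded
      rw [not_le] at hQ3
      have h3 : (T : ℝ) ^ δ0 ≤ 2 := by linarith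
      have h4 : (T * Wp P) ^ A ≤ 2 ^ A1 := hpow.trans (pow_le_pow_left₀ (by positivity) h3 A1)
      have hE : (Em (FreeS P a) N Y T : ℝ) ≤ Y := by exact_mod_cast Em_le _ N Y T
      refine hE.trans ?_
      rw [mul_div_assoc', le_div_iff₀ (by positivity), mul_comm]
      apply mul_le_mul_of_nonneg_right _ hY0
      have : 0 < C2 * 2 ^ A1 := by positivity
      linarith

/-- **Empty windows, for all sets of primes** -/
theorem emptyAll (A : ℕ) : ∃ (K : ℕ) (C : ℝ), 0 < C ∧ ∀ᶠ y : ℕ in atTop, ∀ Y : ℕ, y ^ K ≤ Y →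
    ∀ P : Finset ℕ, P ⊆ pz y → ∀ (a : ℕ → ℕ) (N T : ℕ), 1 ≤ T * Wp P →
    (Em (FreeS P a) N Y T : ℝ) ≤ C * (Y / (T * Wp P) ^ A) := by
  obtain ⟨B, KL, hlong⟩ := longY A
  obtain ⟨K1, C1, hC1, h1⟩ := shortAll A
  set A3 := 2 * (A * B) with hA3
  obtain ⟨K2, C2, hC2, h2⟩ := shortAll A3
  obtain ⟨K3, C3, hC3, h3, -⟩ := emptyY (max A 1) (le_max_right _ _) (1 / 2) (by norm_num)
  refine ⟨KL + K1 + K2 + K3, 1 + C1 + C2 * 2 ^ A3 + C3, by positivity, ?_⟩
  have hLt : Tendsto (fun y : ℕ => Real.log (y : ℝ)) atTop atTop :=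
    Real.tendsto_log_atTop.comp tendsto_natCast_atTop_atTop
  filter_upwards [hlong, h1, h2, h3, eventually_ge_atTop 3, hLt.eventually_ge_atTop 4] with y g1 g2 g3 g4 hy3 g5
    Y hY P hP a N T hT1
  have hle : ∀ e : ℕ, e ≤ KL + K1 + K2 + K3 → y ^ e ≤ Y := fun e he =>
    (Nat.pow_le_pow_right (by omega) he).trans hY
  have hl0 : 0 < Real.log y := by linarith
  have hW := Wp_pos' P y hP
  have hW1 := Wp_le1 P y hP
  have hY0 : (0 : ℝ) ≤ Y := Nat.cast_nonneg Y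
  have hT0 : (0 : ℝ) < T := by
    rcases (Nat.cast_nonneg T : (0 : ℝ) ≤ T).lt_or_eq with h | h
    · exact h
    · rw [← h] at hT1
      linarith
  have hX0 : 0 ≤ (Y : ℝ) / (T * Wp P) ^ A := by positivity
  have hc2 : 0 < C2 * 2 ^ A3 := by positivity
  have hfin : ∀ c : ℝ, c ≤ 1 + C1 + C2 * 2 ^ A3 + C3 → c * (Y / (T * Wp P) ^ A) ≤
      (1 + C1 + C2 * 2 ^ A3 + C3) * (Y / (T * Wp P) ^ A) := fun c hc => mul_le_mul_of_nonneg_right hc hX0
  by_cases hs : (T : ℝ) ≤ Real.log y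
  · exact (g2 Y (hle K1 (by omega)) P hP a N T hs hT1).trans (hfin _ (by linarith))
  rw [not_le] at hs
  by_cases hd : Wp P ≤ Real.log y ^ (-(1 / 2) : ℝ)
  · obtain ⟨r, hr⟩ := FreeS_Sur P y hP a
    rw [hr]
    have h5 := g4 Y (hle K3 (by omega)) (restS P y) r N (restS_pos P y) (by rw [VK_restS P y hP]; exact hd) T
      (by rw [VK_restS P y hP]; exact hT1)
    rw [VK_restS P y hP] at h5
    refine h5.trans (le_trans ?_ (hfin C3 (by linarith)))
    apply mul_le_mul_of_nonneg_left _ hC3.le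
    apply div_le_div_of_nonneg_left hY0 (by positivity)
    exact pow_le_pow_right₀ hT1 (le_max_left _ _)
  rw [not_le] at hd
  by_cases hl : Real.log y ^ B ≤ T
  · obtain ⟨r, hr⟩ := FreeS_Sur P y hP a
    rw [hr]
    have h5 := g1 Y (hle KL (by omega)) (restS P y) r N T hl (by rw [VK_restS P y hP]; exact hT1)
    rw [VK_restS P y hP] at h5
    refine h5.trans (le_trans (le_of_eq ?_) (hfin 1 (by linarith)))
    rw [one_mul]
  · rw [not_le] at hl
    set T' := ⌊Real.log y⌋₊ with hT'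
    have hT'1 : (T' : ℝ) ≤ Real.log y := Nat.floor_le hl0.le
    have hT'2 : Real.log y < T' + 1 := Nat.lt_floor_add_one _
    have hT'3 : Real.log y / 2 ≤ T' := by linarith
    have hTT : T' ≤ T := by
      have : (T' : ℝ) ≤ T := hT'1.trans hs.le
      exact_mod_cast this
    set ℓ := Real.log (y : ℝ) with hℓ
    have hsq : ℓ ^ (1 / 2 : ℝ) * ℓ ^ (1 / 2 : ℝ) = ℓ := by
      rw [← Real.rpow_add hl0]
      norm_num
    have hsqp : 0 < ℓ ^ (1 / 2 : ℝ) := by positivity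
    have h6 : ℓ ^ (1 / 2 : ℝ) / 2 ≤ T' * Wp P := by
      calc ℓ ^ (1 / 2 : ℝ) / 2 = (ℓ / 2) * ℓ ^ (-(1 / 2) : ℝ) := by
            rw [Real.rpow_neg hl0.le]
            have : ℓ / 2 = ℓ ^ (1 / 2 : ℝ) * ℓ ^ (1 / 2 : ℝ) / 2 := by rw [hsq]
            rw [this]
            field_simp
        _ ≤ T' * Wp P := mul_le_mul hT'3 hd.le (by positivity) (Nat.cast_nonneg _)
    have h7 : 2 ≤ ℓ ^ (1 / 2 : ℝ) := by
      by_contra hcon
      rw [not_le] at hcon
      nlinarith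
    have h8 := g3 Y (hle K2 (by omega)) P hP a N T' hT'1 (by linarith)
    have h9 : (Em (FreeS P a) N Y T : ℝ) ≤ Em (FreeS P a) N Y T' := by
      exact_mod_cast Em_anti (FreeS P a) N Y T' T hTT
    refine h9.trans (h8.trans (le_trans ?_ (hfin (C2 * 2 ^ A3) (by linarith))))
    rw [mul_assoc]
    apply mul_le_mul_of_nonneg_left _ hC2.le
    calc (Y : ℝ) / (T' * Wp P) ^ A3 ≤ Y / (ℓ ^ (1 / 2 : ℝ) / 2) ^ A3 := by
          apply div_le_div_of_nonneg_left hY0 (by positivity)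
          exact pow_le_pow_left₀ (by positivity) h6 A3
      _ = 2 ^ A3 * (Y / (ℓ ^ (1 / 2 : ℝ)) ^ A3) := by
          rw [div_pow]
          field_simp
      _ ≤ 2 ^ A3 * (Y / (T * Wp P) ^ A) := by
          apply mul_le_mul_of_nonneg_left _ (by positivity)
          apply div_le_div_of_nonneg_left hY0 (by positivity)
          calc (T * Wp P) ^ A ≤ (T : ℝ) ^ A := by
                apply pow_le_pow_left₀ (by positivity)
                exact mul_le_of_le_one_right hT0.le hW1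
            _ ≤ (ℓ ^ B) ^ A := pow_le_pow_left₀ hT0.le hl.le A
            _ = (ℓ ^ (1 / 2 : ℝ)) ^ A3 := by
                rw [hA3, pow_mul (ℓ ^ (1 / 2 : ℝ)) 2, pow_two, hsq, ← pow_mul, mul_comm B A]

end Pool.Agent.H36.GP
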