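import Mathlib
import Pool.Agent.H36.GP.Free

/-!
The Poisson law, the law of the gaps and the moments of the gaps, for all sets of primes of small density; bounds for
the moments for all sets of primes.
-/

set_option autoImplicit false

open Finset Filter Topology

namespace Pool.Agent.H36.GP

open Pool.Agent.H36.RW Pool.Agent.H36.BF Pool.Agent.H373R2.T7 Pool.Agent.H36.BE
open Pool.Agent.H36.KT Pool.Agent.H36.LH
open Pool.Agent.W123.RP Pool.Agent.W123.RU Pool.Agent.TH464.PO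

lemma Wp_inv : ∃ C : ℝ, 0 < C ∧ ∀ y : ℕ, 2 ≤ y → ∀ P : Finset ℕ, P ⊆ pz y → 1 / Wp P ≤ C * Real.log y := by
  obtain ⟨C, hC, h⟩ := VK0_inv
  refine ⟨C, hC, fun y hy P hP => ?_⟩
  rw [← VK_restS P y hP]
  exact h y hy _

open Classical in
lemma law_condV (x κ η' : ℝ) (hκ : 0 < κ) (hη' : 0 ≤ η') (T0 R0 : ℕ) : ∀ᶠ y : ℕ in atTop, ∀ Y : ℕ, y ^ R0 ≤ Y →
    ∀ w r : ℕ, VK {0} w y ≤ κ / (T0 + 1) → ∀ T : ℕ, κ ≤ T * VK {0} w y → T * VK {0} w y ≤ x →
    T0 ≤ T ∧ T ^ R0 ≤ Y ∧ ∀ t ∈ Icc 1 T,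
      ((((pz y).filter (fun p : ℕ => T < p ∧ CoG (RT {0} w r) p t)).card : ℕ) : ℝ) ≤ η' * T := by
  obtain ⟨C, hC, hinv⟩ := VK0_inv
  have hLt : Tendsto (fun Y : ℕ => Real.log (Y : ℝ)) atTop atTop :=
    Real.tendsto_log_atTop.comp tendsto_natCast_atTop_atTop
  filter_upwards [eventually_ge_atTop 2,
    hLt.eventually (ev_pow_exp (|x| * C) 1 one_pos 1)] with y hy2 g2 Y hY w r hVs T hT1 hT2
  rw [pow_one, one_mul] at g2
  have hy0 : (0 : ℝ) < y := by exact_mod_cast (by omega : 0 < y)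
  have hV := VK0_pos w y
  have hT0 : (0 : ℝ) ≤ T := Nat.cast_nonneg T
  refine ⟨?_, ?_, ?_⟩
  · have h1 : κ ≤ T * (κ / (T0 + 1)) := hT1.trans (mul_le_mul_of_nonneg_left hVs hT0)
    rw [mul_div_assoc', le_div_iff₀ (by positivity)] at h1
    have h2 : (T0 : ℝ) + 1 ≤ T := by
      by_contra hcon
      rw [not_le] at hcon
      nlinarith
    have h3 : (T0 : ℝ) ≤ T := by linarith
    exact_mod_cast h3
  · have h1 : (T : ℝ) ≤ |x| * C * Real.log y := by
      have h2 : (T : ℝ) ≤ x * (1 / VK {0} w y) := by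
        rw [mul_one_div, le_div_iff₀ hV]
        exact hT2
      have h3 : 0 ≤ 1 / VK {0} w y := by positivity
      calc (T : ℝ) ≤ x * (1 / VK {0} w y) := h2
        _ ≤ |x| * (1 / VK {0} w y) := mul_le_mul_of_nonneg_right (le_abs_self x) h3
        _ ≤ |x| * (C * Real.log y) := mul_le_mul_of_nonneg_left (hinv y hy2 w) (abs_nonneg x)
        _ = _ := by ring
    have h2 : (T : ℝ) ≤ y := by
      refine h1.trans (g2.trans (le_of_eq ?_))
      exact Real.exp_log hy0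
    have h3 : T ≤ y := by exact_mod_cast h2
    exact (Nat.pow_le_pow_left h3 R0).trans hY
  · intro t ht
    rw [mem_Icc] at ht
    have h1 : (pz y).filter (fun p : ℕ => T < p ∧ CoG (RT {0} w r) p t) = ∅ := by
      rw [filter_eq_empty_iff]
      intro p hp h2
      exact RT0_co w r p T t (mem_pz.1 hp).2 ht.1 ht.2 h2.1 h2.2
    rw [h1, card_empty, Nat.cast_zero]
    positivity

open Classical in
/-- the Poisson law -/
theorem lawV (x ε : ℝ) (hε : 0 < ε) :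
    ∃ (K : ℕ) (v : ℝ), 0 < v ∧ ∀ᶠ y : ℕ in atTop, ∀ Y : ℕ, y ^ K ≤ Y → ∀ P : Finset ℕ, P ⊆ pz y → Wp P ≤ v →
    ∀ (a : ℕ → ℕ) (N T : ℕ), T * Wp P ≤ x → ∀ J : Finset ℕ,
      |(((Ioc N (N + Y)).filter (fun n => Wc (FreeS P a) n T ∈ J)).card : ℝ) -
        Y * ∑ j ∈ J, Real.exp (-(T * Wp P)) * (T * Wp P) ^ j / j.factorial| ≤ ε * Y := by
  obtain ⟨K0, y0, T0, R0, η', κ, hη', hκ, hκ2, hlaw⟩ := gen_law 1 le_rfl x ε hε
  refine ⟨K0 + R0, min κ (κ / (T0 + 1)), lt_min hκ (by positivity), ?_⟩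
  filter_upwards [law_condV (max x 1) κ η' hκ hη'.le T0 R0, eventually_ge_atTop y0,
    eventually_ge_atTop 1] with y h1 hy0 hy1 Y hY P hP hPv a N T hT J
  obtain ⟨r, hr⟩ := FreeS_Sur P y hP a
  rw [hr]
  set w := restS P y with hw
  have hVW : VK {0} w y = Wp P := VK_restS P y hP
  rw [← hVW] at hPv hT ⊢
  have hS : Sf (RT {0} w r) y = Sur {0} w r y := by
    funext m
    exact propext (RT0_Sf w r y m)
  have hV := RT0_V w r y
  have h3 := hlaw (RT {0} w r) N Y y (RT_per 1 {0} (by simp) w r) (fun p hp => RT_adm {0} w r (adm0 w) p hp) hy0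
    ((Nat.pow_le_pow_right hy1 (by omega)).trans hY) (by rw [hV]; exact hPv.trans (min_le_left _ _))
    (by
      rw [hV]
      exact h1 Y ((Nat.pow_le_pow_right hy1 (by omega)).trans hY) w r (hPv.trans (min_le_right _ _))) T
      (by rw [hV]; exact hT) J
  rw [hS, hV] at h3
  exact h3

open Classical in
/-- the law of the gaps -/
theorem gapV (ε : ℝ) (hε : 0 < ε) :
    ∃ (K : ℕ) (v : ℝ), 0 < v ∧ ∀ᶠ y : ℕ in atTop, ∀ Y : ℕ, y ^ K ≤ Y → ∀ P : Finset ℕ, P ⊆ pz y → Wp P ≤ v →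
    ∀ (a : ℕ → ℕ) (N T : ℕ), |(Pk (FreeS P a) 1 T N Y : ℝ) - Y * Wp P * Real.exp (-(T * Wp P))| ≤
      ε * (Y * Wp P) := by
  obtain ⟨K0, y0, T0, R0, η', κ, x1, hη', hκ, hx1, hgap⟩ := gen_gap 1 le_rfl 1 0 ε hε
  obtain ⟨C, hC, hinv⟩ := VK0_inv
  have hLt : Tendsto (fun Y : ℕ => Real.log (Y : ℝ)) atTop atTop :=
    Real.tendsto_log_atTop.comp tendsto_natCast_atTop_atTop
  refine ⟨K0 + R0 + 2, min κ (κ / (T0 + 1)), lt_min hκ (by positivity), ?_⟩
  filter_upwards [law_condV x1 κ η' hκ hη'.le T0 R0, eventually_ge_atTop y0,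
    eventually_ge_atTop 2, hLt.eventually (ev_pow_exp (C / κ) 1 one_pos 1),
    hLt.eventually (ev_pow_exp (x1 * C ^ 2 / κ) 1 one_pos 2)] with y h1 hy0 hy2 g1 g2 Y hY P hP hPv a N T
  obtain ⟨r, hr⟩ := FreeS_Sur P y hP a
  rw [hr]
  set w := restS P y with hw
  have hVW : VK {0} w y = Wp P := VK_restS P y hP
  rw [← hVW] at hPv ⊢
  have hyr : (0 : ℝ) < y := by exact_mod_cast (by omega : 0 < y)
  rw [one_mul, Real.exp_log hyr] at g1 g2
  rw [pow_one] at g1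
  have hS : Sf (RT {0} w r) y = Sur {0} w r y := by
    funext m
    exact propext (RT0_Sf w r y m)
  have hV := RT0_V w r y
  have hVp := VK0_pos w y
  have hVi := hinv y hy2 w
  set V := VK {0} w y with hVd
  have hY2 : y ^ 2 ≤ Y := (Nat.pow_le_pow_right (by omega) (by omega)).trans hY
  have hY2r : (y : ℝ) ^ 2 ≤ Y := by exact_mod_cast hY2
  have hY1 : (y : ℝ) ≤ Y := by
    have : (1 : ℝ) ≤ y := by exact_mod_cast (by omega : 1 ≤ y)
    nlinarith
  have hYp : (0 : ℝ) < Y := by linarith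
  have hsq : (y : ℝ) ≤ √(Y : ℝ) := by
    rw [Real.le_sqrt hyr.le hYp.le]
    exact hY2r
  have hl0 : 0 ≤ Real.log y := Real.log_natCast_nonneg y
  have h3 := hgap (RT {0} w r) N Y y (RT_per 1 {0} (by simp) w r) (fun p hp => RT_adm {0} w r (adm0 w) p hp) hy0
    ((Nat.pow_le_pow_right (by omega) (by omega)).trans hY) (by rw [hV]; exact hPv.trans (min_le_left _ _))
    (by
      rw [hV]
      have h4 : 1 ≤ κ * (√(Y : ℝ) * V) := by
        have h5 : C / κ * Real.log y ≤ √(Y : ℝ) := g1.trans hsq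
        have h6 : 1 / V ≤ κ * √(Y : ℝ) := by
          calc 1 / V ≤ C * Real.log y := hVi
            _ = κ * (C / κ * Real.log y) := by field_simp
            _ ≤ κ * √(Y : ℝ) := mul_le_mul_of_nonneg_left h5 hκ.le
        rw [div_le_iff₀ hVp] at h6
        linarith
      calc √(Y : ℝ) = √(Y : ℝ) * 1 := (mul_one _).symm
        _ ≤ √(Y : ℝ) * (κ * (√(Y : ℝ) * V)) := mul_le_mul_of_nonneg_left h4 (Real.sqrt_nonneg _)
        _ = κ * ((√(Y : ℝ) * √(Y : ℝ)) * V) := by ring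
        _ = κ * (Y * V) := by rw [Real.mul_self_sqrt hYp.le])
    (by
      rw [hV]
      have h4 : (1 / V) ^ 2 ≤ (C * Real.log y) ^ 2 := pow_le_pow_left₀ (by positivity) hVi 2
      have h5 : x1 * (1 / V) ^ 2 ≤ κ * Y := by
        calc x1 * (1 / V) ^ 2 ≤ x1 * (C * Real.log y) ^ 2 := mul_le_mul_of_nonneg_left h4 hx1.le
          _ = κ * (x1 * C ^ 2 / κ * Real.log y ^ 2) := by field_simp
          _ ≤ κ * Y := mul_le_mul_of_nonneg_left (g2.trans hY1) hκ.le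
      calc x1 / V = x1 * (1 / V) ^ 2 * V := by field_simp
        _ ≤ κ * Y * V := mul_le_mul_of_nonneg_right h5 hVp.le
        _ = κ * (Y * V) := by ring)
    (by
      rw [hV]
      exact h1 Y ((Nat.pow_le_pow_right (by omega) (by omega)).trans hY) w r (hPv.trans (min_le_right _ _))) 1 T (Or.inl le_rfl)
  rw [hS, hV] at h3
  have e : Ck 1 (T * V) = Real.exp (-(T * V)) := by
    unfold Ck pw
    simp
  rw [e] at h3
  exact h3

open Classical in
/-- the tails of the empty windows, and elements near the ends -/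
theorem emptyE (A : ℕ) (hA : 1 ≤ A) :
    ∃ (K : ℕ) (C : ℝ), 0 < C ∧ (∀ᶠ y : ℕ in atTop, ∀ Y : ℕ, y ^ K ≤ Y → ∀ P : Finset ℕ, P ⊆ pz y → ∀ (a : ℕ → ℕ) (N : ℕ),
      ∀ t : ℕ, 1 ≤ t * Wp P → (Em (FreeS P a) N Y t : ℝ) ≤ C * (Y / (t * Wp P) ^ A)) ∧
      ∀ η : ℝ, 0 < η → η ≤ 1 → ∀ᶠ y : ℕ in atTop, ∀ Y : ℕ, y ^ K ≤ Y → ∀ P : Finset ℕ, P ⊆ pz y → ∀ (a : ℕ → ℕ) (N : ℕ),
      (∃ s, N < s ∧ s ≤ N + ⌊η * Y⌋₊ ∧ FreeS P a s) ∧ (∃ s, N + Y < s + ⌊η * Y⌋₊ ∧ s ≤ N + Y ∧ FreeS P a s) := by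
  obtain ⟨K, C, hC, htail⟩ := emptyAll A
  obtain ⟨Ci, hCi, hinv⟩ := Wp_inv
  have hLt : Tendsto (fun Y : ℕ => Real.log (Y : ℝ)) atTop atTop :=
    Real.tendsto_log_atTop.comp tendsto_natCast_atTop_atTop
  have h1 : ∀ᶠ y : ℕ in atTop, ∀ Y : ℕ, y ^ (K + 1) ≤ Y → ∀ P : Finset ℕ, P ⊆ pz y → ∀ (a : ℕ → ℕ) (N : ℕ),
      ∀ t : ℕ, 1 ≤ t * Wp P → (Em (FreeS P a) N Y t : ℝ) ≤ C * (Y / (t * Wp P) ^ A) := by
    filter_upwards [htail, eventually_ge_atTop 1] with y h1 hy1 Y hY P hP a N t ht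
    exact h1 Y ((Nat.pow_le_pow_right hy1 (by omega)).trans hY) P hP a N t ht
  refine ⟨K + 1, C, hC, h1, ?_⟩
  intro η hη hη1
  filter_upwards [h1, eventually_ge_atTop 2, hLt.eventually (ev_pow_exp (16 * Ci * (C + 1) / η ^ 2) 1 one_pos 1),
    hLt.eventually (ev_pow_exp (4 * Ci / η) 1 one_pos 1), eventually_ge_atTop ⌈4 / η⌉₊] with y h2 hy2 g1 g2 g3 Y hY P hP a N
  have hyr : (0 : ℝ) < y := by exact_mod_cast (by omega : 0 < y)
  rw [one_mul, Real.exp_log hyr, pow_one] at g1 g2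
  have hYy : y ≤ Y := by
    calc y = y ^ 1 := (pow_one y).symm
      _ ≤ y ^ (K + 1) := Nat.pow_le_pow_right (by omega) (by omega)
      _ ≤ Y := hY
  have hYyr : (y : ℝ) ≤ Y := by exact_mod_cast hYy
  have hYp : (0 : ℝ) < Y := by linarith
  have hV := Wp_pos' P y hP
  have hVi := hinv y hy2 P hP
  set V := Wp P with hVd
  have hl0 : 0 < Real.log y := Real.log_pos (by exact_mod_cast (by omega : 1 < y))
  have hg3 : 4 / η ≤ Y := (Nat.le_ceil _).trans ((by exact_mod_cast g3 : ((⌈4 / η⌉₊ : ℕ) : ℝ) ≤ y).trans hYyr)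
  have hηY : 4 ≤ η * Y := by
    rw [div_le_iff₀ hη] at hg3
    linarith
  set G := ⌊η * (Y : ℝ)⌋₊ with hG
  have hG1 : (G : ℝ) ≤ η * Y := Nat.floor_le (by positivity)
  have hG2 : η * Y < G + 1 := Nat.lt_floor_add_one _
  have hGY : G ≤ Y := by
    have : (G : ℝ) ≤ Y := by nlinarith
    exact_mod_cast this
  set t0 := G / 2 with ht0
  have ht01 : (G : ℝ) ≤ 2 * t0 + 1 := by exact_mod_cast (by omega : G ≤ 2 * t0 + 1)
  have ht02 : η * Y / 4 ≤ t0 := by linarith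
  have ht0p : (0 : ℝ) < t0 := by linarith
  -- the window t0 is long
  have hVlow : 1 / (Ci * Real.log y) ≤ V := by
    rw [div_le_iff₀ hV] at hVi
    rw [div_le_iff₀ (by positivity)]
    linarith
  have ht0V : 1 ≤ t0 * V := by
    have h3 : 4 * Ci / η * Real.log y ≤ Y := g2.trans hYyr
    calc (1 : ℝ) = (η * (4 * Ci / η * Real.log y) / 4) * (1 / (Ci * Real.log y)) := by field_simp
      _ ≤ (η * Y / 4) * (1 / (Ci * Real.log y)) := by gcongr
      _ ≤ t0 * V := by gcongr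
  have h3 := h2 Y hY P hP a N t0 ht0V
  refine ends (FreeS P a) N Y G t0 (by omega) hGY ?_
  have h4 : C * (Y / (t0 * V) ^ A) < t0 := by
    have h5 : t0 * V ≤ (t0 * V) ^ A := by
      calc t0 * V = (t0 * V) ^ 1 := (pow_one _).symm
        _ ≤ (t0 * V) ^ A := pow_le_pow_right₀ ht0V hA
    have h6 : C * (Y / (t0 * V) ^ A) ≤ C * (Y / (t0 * V)) := by gcongr
    refine lt_of_le_of_lt h6 ?_
    rw [mul_div_assoc', div_lt_iff₀ (by positivity)]
    have h7 : 16 * Ci * (C + 1) / η ^ 2 * Real.log y ≤ Y := g1.trans hYyr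
    have h8 : (C + 1) * Y ≤ (η * Y / 4) * ((η * Y / 4) * (1 / (Ci * Real.log y))) := by
      calc (C + 1) * Y = (16 * Ci * (C + 1) / η ^ 2 * Real.log y) * Y * (η ^ 2 / 16 * (1 / (Ci * Real.log y))) := by
            field_simp
        _ ≤ Y * Y * (η ^ 2 / 16 * (1 / (Ci * Real.log y))) := by gcongr
        _ = _ := by ring
    have h9 : (η * Y / 4) * ((η * Y / 4) * (1 / (Ci * Real.log y))) ≤ t0 * (t0 * V) := by gcongr
    linarith
  exact_mod_cast h3.trans_lt h4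

open Classical in
/-- **All moments of the gaps, asymptotically** -/
theorem momV (m : ℕ) (hm : 1 ≤ m) (ε : ℝ) (hε : 0 < ε) :
    ∃ (K : ℕ) (v : ℝ), 0 < v ∧ ∀ᶠ y : ℕ in atTop, ∀ Y : ℕ, y ^ K ≤ Y → ∀ P : Finset ℕ, P ⊆ pz y → Wp P ≤ v →
    ∀ (a : ℕ → ℕ) (N : ℕ),
    |∑ x ∈ consec ((Ioc N (N + Y)).filter (FreeS P a)), ((x.2 - x.1 : ℕ) : ℝ) ^ (m + 1) -
      (m + 1).factorial * (Y / Wp P ^ m)| ≤ ε * (Y / Wp P ^ m) := by
  obtain ⟨K1, C, hC, htail, hends⟩ := emptyE (m + 2) (by omega)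
  obtain ⟨x1, η, κ, hx1, hη, hκ, hasy⟩ := asy_bounds m hm C ε hC.le hε
  obtain ⟨K2, v2, hv2, hlaw⟩ := lawV x1 η hη
  have hη'0 : 0 < min η 1 := lt_min hη one_pos
  refine ⟨K1 + K2, min κ v2, lt_min hκ hv2, ?_⟩
  filter_upwards [htail, hends (min η 1) hη'0 (min_le_right _ _), hlaw, eventually_ge_atTop 1]
    with y h1 h2 h3 hy1 Y hY P hP hPv a N
  have hY1 : y ^ K1 ≤ Y := (Nat.pow_le_pow_right hy1 (by omega)).trans hY
  have hY2 : y ^ K2 ≤ Y := (Nat.pow_le_pow_right hy1 (by omega)).trans hY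
  have hV := Wp_pos' P y hP
  set V := Wp P with hVd
  obtain ⟨hs1, hs2⟩ := h2 Y hY1 P hP a N
  set G := ⌊min η 1 * (Y : ℝ)⌋₊ with hG
  have hG1 : (G : ℝ) ≤ η * Y := by
    have h5 : (G : ℝ) ≤ min η 1 * Y := Nat.floor_le (by positivity)
    exact h5.trans (mul_le_mul_of_nonneg_right (min_le_left _ _) (Nat.cast_nonneg Y))
  obtain ⟨hup, M, hlow⟩ := hasy Y G V (fun t => (Em (FreeS P a) N Y t : ℝ))
    (fun t => (Fm ((Ioc N (N + Y)).filter (FreeS P a)) t : ℝ)) hV (hPv.trans (min_le_left _ _)) hG1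
    (fun t => Nat.cast_nonneg _)
    (fun t ht => by
      have h5 := h3 Y hY2 P hP (hPv.trans (min_le_right _ _)) a N t ht {0}
      rw [← Em_Wc, sum_singleton, pow_zero, mul_one, Nat.factorial_zero, Nat.cast_one, div_one] at h5
      exact h5)
    (fun t ht => h1 Y hY1 P hP a N t ht)
    (fun t => by
      have h5 := Em_le_Fm (FreeS P a) N Y G t hs1 hs2
      exact_mod_cast h5)
    (fun t => Nat.cast_nonneg _)
  have h5 := gap_sum (FreeS P a) N Y m hm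
  have h6 := gap_low (FreeS P a) N Y m M hm
  have h7 := h5.trans hup
  have h8 := hlow.trans h6
  rw [abs_le]
  constructor
  · have e : ((m + 1).factorial - ε) * (Y / V ^ m) = (m + 1).factorial * (Y / V ^ m) - ε * (Y / V ^ m) := by ring
    linarith
  · have e : ((m + 1).factorial + ε) * (Y / V ^ m) = (m + 1).factorial * (Y / V ^ m) + ε * (Y / V ^ m) := by ring
    linarith

open Classical in
/-- the first moment -/
theorem mom0V (ε : ℝ) (hε : 0 < ε) :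
    ∃ K : ℕ, ∀ᶠ y : ℕ in atTop, ∀ Y : ℕ, y ^ K ≤ Y → ∀ P : Finset ℕ, P ⊆ pz y → ∀ (a : ℕ → ℕ) (N : ℕ),
    |∑ x ∈ consec ((Ioc N (N + Y)).filter (FreeS P a)), ((x.2 - x.1 : ℕ) : ℝ) - Y| ≤ ε * Y := by
  obtain ⟨K1, C, hC, htail, hends⟩ := emptyE 1 le_rfl
  have hη'0 : 0 < min (ε / 2) 1 := lt_min (by positivity) one_pos
  refine ⟨K1, ?_⟩
  filter_upwards [hends (min (ε / 2) 1) hη'0 (min_le_right _ _)] with y h2 Y hY P hP a N
  obtain ⟨hs1, hs2⟩ := h2 Y hY P hP a N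
  set G := ⌊min (ε / 2) 1 * (Y : ℝ)⌋₊ with hG
  have hG1 : (G : ℝ) ≤ ε / 2 * Y := by
    have h5 : (G : ℝ) ≤ min (ε / 2) 1 * Y := Nat.floor_le (by positivity)
    exact h5.trans (mul_le_mul_of_nonneg_right (min_le_left _ _) (Nat.cast_nonneg Y))
  have h1 := Em_le_Fm (FreeS P a) N Y G 0 hs1 hs2
  have hE0 : Em (FreeS P a) N Y 0 = Y := by
    unfold Em
    rw [filter_true_of_mem (fun n _ h hh => by rw [mem_Icc] at hh; omega), Nat.card_Ioc]
    omega
  have hF : Fm ((Ioc N (N + Y)).filter (FreeS P a)) 0 ≤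
      ∑ x ∈ consec ((Ioc N (N + Y)).filter (FreeS P a)), (x.2 - x.1) := by
    unfold Fm
    refine card_biUnion_le.trans ?_
    apply sum_le_sum
    intro x _
    refine (card_filter_le _ _).trans ?_
    rw [Nat.card_Ico]
  have hup : ∑ x ∈ consec ((Ioc N (N + Y)).filter (FreeS P a)), (x.2 - x.1) ≤ Y := by
    have h7 : ∑ x ∈ consec ((Ioc N (N + Y)).filter (FreeS P a)), (x.2 - x.1) =
        ((consec ((Ioc N (N + Y)).filter (FreeS P a))).biUnion (fun x => Ico x.1 x.2)).card := by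
      rw [card_biUnion]
      · apply sum_congr rfl
        intro x _
        rw [Nat.card_Ico]
      · intro x hx y hy hxy
        rw [Function.onFun, disjoint_left]
        intro n hn hn'
        rw [mem_Ico] at hn hn'
        exact hxy (consec_unique hx hy n hn hn')
    rw [h7]
    calc _ ≤ (Ioc N (N + Y)).card := by
          apply card_le_card
          intro n hn
          rw [mem_biUnion] at hn
          obtain ⟨x, hx, hn⟩ := hn
          obtain ⟨⟨a1, a2⟩, _, _⟩ := mem_consec.1 hx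
          have hx1 := mem_Ioc.1 (mem_filter.1 a1).1
          have hx2 := mem_Ioc.1 (mem_filter.1 a2).1
          rw [mem_Ico] at hn
          rw [mem_Ioc]
          omega
      _ = Y := by rw [Nat.card_Ioc]; omega
  have hupr : ∑ x ∈ consec ((Ioc N (N + Y)).filter (FreeS P a)), ((x.2 - x.1 : ℕ) : ℝ) ≤ Y := by
    exact_mod_cast hup
  have hlowr : (Y : ℝ) ≤ ∑ x ∈ consec ((Ioc N (N + Y)).filter (FreeS P a)), ((x.2 - x.1 : ℕ) : ℝ) + 2 * G := by
    rw [hE0] at h1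
    exact_mod_cast h1.trans (Nat.add_le_add_right hF _)
  have hY0 : (0 : ℝ) ≤ Y := Nat.cast_nonneg Y
  rw [abs_le]
  constructor
  · nlinarith
  · nlinarith

open Classical in
/-- the law of the gaps in terms of the pairs of consecutive elements -/
theorem gapPV (ε : ℝ) (hε : 0 < ε) :
    ∃ (K : ℕ) (v : ℝ), 0 < v ∧ ∀ᶠ y : ℕ in atTop, ∀ Y : ℕ, y ^ K ≤ Y → ∀ P : Finset ℕ, P ⊆ pz y → Wp P ≤ v →
    ∀ (a : ℕ → ℕ) (N T : ℕ),
    |(((consec ((Ioc N (N + Y)).filter (FreeS P a))).filter (fun x => T < x.2 - x.1)).card : ℝ) -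
      Y * Wp P * Real.exp (-(T * Wp P))| ≤ ε * (Y * Wp P) := by
  obtain ⟨K, v, hv, hgap⟩ := gapV (ε / 2) (by positivity)
  obtain ⟨Ci, hCi, hinv⟩ := Wp_inv
  have hLt : Tendsto (fun Y : ℕ => Real.log (Y : ℝ)) atTop atTop :=
    Real.tendsto_log_atTop.comp tendsto_natCast_atTop_atTop
  refine ⟨K + 1, v, hv, ?_⟩
  filter_upwards [hgap, eventually_ge_atTop 2, hLt.eventually (ev_pow_exp (2 * Ci / ε) 1 one_pos 1)]
    with y h1 hy2 g1 Y hY P hP hPv a N T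
  have hyr : (0 : ℝ) < y := by exact_mod_cast (by omega : 0 < y)
  rw [one_mul, Real.exp_log hyr, pow_one] at g1
  have hYy : y ≤ Y := by
    calc y = y ^ 1 := (pow_one y).symm
      _ ≤ y ^ (K + 1) := Nat.pow_le_pow_right (by omega) (by omega)
      _ ≤ Y := hY
  have hYyr : (y : ℝ) ≤ Y := by exact_mod_cast hYy
  have h2 := h1 Y ((Nat.pow_le_pow_right (by omega) (by omega)).trans hY) P hP hPv a N T
  obtain ⟨h3, h4⟩ := Pk_gap (FreeS P a) T N Y
  have hV := Wp_pos' P y hP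
  have hVi := hinv y hy2 P hP
  set V := Wp P with hVd
  have h5 : 1 ≤ ε / 2 * (Y * V) := by
    have h6 : 1 / V ≤ ε / 2 * Y := by
      calc 1 / V ≤ Ci * Real.log y := hVi
        _ = ε / 2 * (2 * Ci / ε * Real.log y) := by field_simp
        _ ≤ ε / 2 * Y := mul_le_mul_of_nonneg_left (g1.trans hYyr) (by positivity)
    rw [div_le_iff₀ hV] at h6
    linarith
  set c1 := ((consec ((Ioc N (N + Y)).filter (FreeS P a))).filter (fun x => T < x.2 - x.1)).card with hc1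
  have h3' : (Pk (FreeS P a) 1 T N Y : ℝ) ≤ c1 + 1 := by exact_mod_cast h3
  have h4' : (c1 : ℝ) ≤ Pk (FreeS P a) 1 T N Y := by exact_mod_cast h4
  obtain ⟨h6, h7⟩ := abs_le.1 h2
  rw [abs_le]
  constructor <;> linarith

end Pool.Agent.H36.GP
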