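import Mathlib
import Pool.Agent.H36.GP.Law
import Pool.Agent.H36.LH.Cor

/-!
All sets of primes, all `y`.
-/

set_option autoImplicit false

open Finset Filter Topology

namespace Pool.Agent.H36.GP

open Pool.Agent.H36.RW Pool.Agent.H36.BF Pool.Agent.H373R2.T7 Pool.Agent.H36.BE
open Pool.Agent.H36.KT Pool.Agent.H36.LH
open Pool.Agent.W123.RP Pool.Agent.W123.RU Pool.Agent.TH464.PO

/-- survivors in every interval of length the product of the primes -/
lemma free_ex (P : Finset ℕ) (hP : ∀ p ∈ P, p.Prime) (a : ℕ → ℕ) (n : ℕ) :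
    ∃ m, n < m ∧ m ≤ n + ∏ p ∈ P, p ∧ FreeS P a m := by
  classical
  set q := ∏ p ∈ P, p with hq
  have hq0 : 0 < q := Finset.prod_pos fun p hp => (hP p hp).pos
  have hpp : ∀ p ∈ P, p ≠ 0 := fun p hp => (hP p hp).ne_zero
  have hco : Set.Pairwise (↑P : Set ℕ) (Function.onFun Nat.Coprime (fun p : ℕ => p)) := by
    intro p hp p' hp' hne
    exact (Nat.coprime_primes (hP p hp) (hP p' hp')).2 hne
  obtain ⟨k, hk⟩ := Nat.chineseRemainderOfFinset (fun p => a p + 1) (fun p => p) P hpp hco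
  set t := (k + (n + 1) * q - (n + 1)) % q with ht
  have htq : t < q := Nat.mod_lt _ hq0
  have h1 : n + 1 ≤ (n + 1) * q := Nat.le_mul_of_pos_right _ hq0
  refine ⟨n + 1 + t, by omega, by omega, ?_⟩
  intro p hp hmod
  have hpq : p ∣ q := dvd_prod_of_mem _ hp
  have h2 : n + 1 + t ≡ k [MOD q] := by
    have h3 : n + 1 + t ≡ (n + 1) + (k + (n + 1) * q - (n + 1)) [MOD q] := Nat.ModEq.add_left _ (Nat.mod_modEq _ _)
    have h4 : (n + 1) + (k + (n + 1) * q - (n + 1)) = k + (n + 1) * q := by omega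
    rw [h4] at h3
    refine h3.trans ?_
    simp [Nat.ModEq]
  have h3 : a p ≡ a p + 1 [MOD p] := hmod.symm.trans ((h2.of_dvd hpq).trans (hk p hp))
  have h4 : p ∣ 1 := by
    have h5 := (Nat.modEq_iff_dvd' (by omega)).1 h3
    simpa using h5
  exact (hP p hp).one_lt.ne' (Nat.dvd_one.1 h4)

open Classical in
lemma gap_le_prod (P : Finset ℕ) (hP : ∀ p ∈ P, p.Prime) (a : ℕ → ℕ) (N Y : ℕ) (x : ℕ × ℕ)
    (hx : x ∈ consec ((Ioc N (N + Y)).filter (FreeS P a))) : x.2 - x.1 ≤ ∏ p ∈ P, p := by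
  obtain ⟨⟨h1, h2⟩, h3, h4⟩ := mem_consec.1 hx
  obtain ⟨m, h5, h6, h7⟩ := free_ex P hP a x.1
  by_contra hcon
  rw [not_le] at hcon
  have h8 := mem_Ioc.1 (mem_filter.1 h1).1
  have h9 := mem_Ioc.1 (mem_filter.1 h2).1
  apply h4 m
  · rw [mem_filter, mem_Ioc]
    exact ⟨by omega, h7⟩
  · omega

/-- the product for small `y` -/
lemma prod_le_small (y0 : ℕ) : ∃ Q : ℕ, 1 ≤ Q ∧ ∀ y < y0, ∀ P : Finset ℕ, P ⊆ pz y → ∏ p ∈ P, p ≤ Q := by
  refine ⟨∑ y ∈ range y0, (∏ p ∈ pz y, p) + 1, by omega, ?_⟩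
  intro y hy P hP
  have h1 : ∏ p ∈ P, p ≤ ∏ p ∈ pz y, p :=
    Finset.prod_le_prod_of_subset_of_one_le' hP fun p hp _ => (mem_pz.1 hp).2.one_lt.le
  have h2 : ∏ p ∈ pz y, p ≤ ∑ y ∈ range y0, ∏ p ∈ pz y, p :=
    single_le_sum (f := fun y => ∏ p ∈ pz y, p) (fun _ _ => Nat.zero_le _) (mem_range.2 hy)
  omega

open Classical in
/-- **Empty windows, for all sets of primes and all `y`** -/
theorem emptyFull (A : ℕ) : ∃ (K : ℕ) (C : ℝ), 0 < C ∧ ∀ y Y : ℕ, y ^ K ≤ Y →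
    ∀ P : Finset ℕ, P ⊆ pz y → ∀ (a : ℕ → ℕ) (N T : ℕ), 1 ≤ T * Wp P →
    (Em (FreeS P a) N Y T : ℝ) ≤ C * (Y / (T * Wp P) ^ A) := by
  obtain ⟨K, C, hC, h⟩ := emptyAll A
  obtain ⟨y0, hy0⟩ := eventually_atTop.1 h
  obtain ⟨Q, hQ1, hQ⟩ := prod_le_small y0
  refine ⟨K, C + (Q : ℝ) ^ A, by positivity, ?_⟩
  intro y Y hY P hP a N T hT
  have hW := Wp_pos' P y hP
  have hW1 := Wp_le1 P y hP
  have hX0 : 0 ≤ (Y : ℝ) / (T * Wp P) ^ A := by positivity
  rcases Nat.lt_or_ge y y0 with hy | hy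
  · rcases Nat.lt_or_ge T Q with hTQ | hTQ
    · have hE : (Em (FreeS P a) N Y T : ℝ) ≤ Y := by exact_mod_cast Em_le _ N Y T
      refine hE.trans ?_
      rw [mul_div_assoc', le_div_iff₀ (by positivity), mul_comm]
      apply mul_le_mul_of_nonneg_right _ (Nat.cast_nonneg _)
      have h1 : (T * Wp P) ^ A ≤ (Q : ℝ) ^ A := by
        apply pow_le_pow_left₀ (by positivity)
        have h2 : (T : ℝ) ≤ Q := by exact_mod_cast hTQ.le
        have h3 : (T : ℝ) * Wp P ≤ T * 1 := mul_le_mul_of_nonneg_left hW1 (Nat.cast_nonneg T)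
        linarith
      linarith
    · have hE : Em (FreeS P a) N Y T = 0 := by
        unfold Em
        rw [card_eq_zero, filter_eq_empty_iff]
        intro n _ h1
        obtain ⟨m, h2, h3, h4⟩ := free_ex P (fun p hp => (mem_pz.1 (hP hp)).2) a n
        have h5 := hQ y hy P hP
        apply h1 (m - n) (by rw [mem_Icc]; omega)
        have e : n + (m - n) = m := by omega
        rw [e]
        exact h4
      rw [hE, Nat.cast_zero]
      positivity
  · refine (hy0 y hy Y hY P hP a N T hT).trans (mul_le_mul_of_nonneg_right ?_ hX0)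
    have : 0 ≤ (Q : ℝ) ^ A := by positivity
    linarith

open Classical in
/-- **Moments of the gaps, for all sets of primes and all `y`** -/
theorem momFull (k : ℕ) : ∃ (K : ℕ) (C : ℝ), 0 < C ∧ ∀ y Y : ℕ, y ^ K ≤ Y →
    ∀ P : Finset ℕ, P ⊆ pz y → ∀ (a : ℕ → ℕ) (N j : ℕ), 1 ≤ j → j ≤ k →
    ∑ x ∈ consec ((Ioc N (N + Y)).filter (FreeS P a)), ((x.2 - x.1 : ℕ) : ℝ) ^ j ≤ C * (Y / Wp P ^ (j - 1)) := by
  obtain ⟨K, C, hC, h⟩ := emptyFull k
  refine ⟨K, 1 + ((k : ℝ) + 1) * (2 ^ k + C * (k * 2 ^ (k + 1))), by positivity, ?_⟩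
  intro y Y hY P hP a N j hj hjk
  have hW := Wp_pos' P y hP
  have hW1 := Wp_le1 P y hP
  have hY0 : (0 : ℝ) ≤ Y := Nat.cast_nonneg Y
  have hc0 : 0 ≤ ((k : ℝ) + 1) * (2 ^ k + C * (k * 2 ^ (k + 1))) := by positivity
  rcases Nat.lt_or_ge j 2 with hj2 | hj2
  · have : j = 1 := by omega
    subst this
    simp only [pow_one, Nat.sub_self, pow_zero, div_one]
    refine (gap_one _ N Y).trans ?_
    have : 0 ≤ (((k : ℝ) + 1) * (2 ^ k + C * (k * 2 ^ (k + 1)))) * Y := mul_nonneg hc0 hY0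
    linarith
  · obtain ⟨m, rfl⟩ : ∃ m, j = m + 1 := ⟨j - 1, by omega⟩
    rw [Nat.add_sub_cancel]
    have hm : 1 ≤ m := by omega
    have h3 := gap_sum (FreeS P a) N Y m hm
    have h4 := gap_final Y m (fun t => (Em (FreeS P a) N Y t : ℝ)) (Wp P) C hm hW hW1 hC.le
      (fun t => Nat.cast_nonneg _) (fun t => by exact_mod_cast Em_le _ N Y t) (fun t ht => by
        refine (h y Y hY P hP a N t ht).trans ?_
        apply mul_le_mul_of_nonneg_left _ hC.le
        apply div_le_div_of_nonneg_left hY0 (by positivity)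
        exact pow_le_pow_right₀ ht hjk)
    refine h3.trans ?_
    have hmA' : (m : ℝ) ≤ k := by exact_mod_cast (by omega : m ≤ k)
    have h5 : (2 : ℝ) ^ m ≤ 2 ^ k := pow_le_pow_right₀ (by norm_num) (by omega)
    have h6 : (2 : ℝ) ^ (m + 1) ≤ 2 ^ (k + 1) := pow_le_pow_right₀ (by norm_num) (by omega)
    have hX0 : 0 ≤ (Y : ℝ) / Wp P ^ m := by positivity
    calc ((m : ℝ) + 1) * ∑ t ∈ range Y, (((t : ℝ) + 1) ^ m - (t : ℝ) ^ m) * (Em (FreeS P a) N Y t : ℝ) ≤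
        ((m : ℝ) + 1) * ((2 ^ m + C * (m * 2 ^ (m + 1))) * (Y / Wp P ^ m)) := mul_le_mul_of_nonneg_left h4 (by positivity)
      _ ≤ ((k : ℝ) + 1) * ((2 ^ k + C * (k * 2 ^ (k + 1))) * (Y / Wp P ^ m)) := by gcongr
      _ = (((k : ℝ) + 1) * (2 ^ k + C * (k * 2 ^ (k + 1)))) * (Y / Wp P ^ m) := by ring
      _ ≤ _ := by
          apply mul_le_mul_of_nonneg_right _ hX0
          linarith

/-- small density only for large `y` -/
lemma large_y (y0 : ℕ) : ∃ v : ℝ, 0 < v ∧ ∀ (y : ℕ) (P : Finset ℕ), P ⊆ pz y → Wp P ≤ v → y0 ≤ y := by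
  obtain ⟨C, hC, h⟩ := Wp_inv
  set y1 := max y0 3 with hy1
  have hl : 0 < Real.log y1 := Real.log_pos (by exact_mod_cast (by omega : 1 < y1))
  refine ⟨min (1 / (2 * (C * Real.log y1))) (1 / 2), lt_min (by positivity) (by norm_num), ?_⟩
  intro y P hP hv
  by_contra hcon
  rw [not_le] at hcon
  rcases Nat.lt_or_ge y 2 with hy | hy
  · have h1 : P = ∅ := by
      rw [eq_empty_iff_forall_notMem]
      intro p hp
      obtain ⟨h2, h3⟩ := mem_pz.1 (hP hp)
      have := h3.two_le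
      omega
    rw [h1] at hv
    have h2 : Wp (∅ : Finset ℕ) = 1 := by
      unfold Wp
      rw [prod_empty]
    rw [h2] at hv
    have := hv.trans (min_le_right _ _)
    norm_num at this
  · have hW := Wp_pos' P y hP
    have h1 := h y hy P hP
    have h2 : Real.log y ≤ Real.log y1 :=
      Real.log_le_log (by exact_mod_cast (by omega : 0 < y)) (by exact_mod_cast (by omega : y ≤ y1))
    have h3 : 1 / Wp P ≤ C * Real.log y1 := h1.trans (mul_le_mul_of_nonneg_left h2 hC.le)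
    have h4 : Wp P ≤ 1 / (2 * (C * Real.log y1)) := hv.trans (min_le_left _ _)
    rw [div_le_iff₀ hW] at h3
    rw [le_div_iff₀ (by positivity)] at h4
    nlinarith

end Pool.Agent.H36.GP
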